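import Mathlib

set_option autoImplicit false

/-!
Leaf number of a graph: growing a partial rooted tree to a spanning tree keeps at least as many
leaves.
-/

namespace Pool.Agent.Q267.LN

variable {V : Type*} [Fintype V]

/-- The number of leaves (vertices with exactly one neighbour) of a graph. -/
noncomputable def leafCount (T : SimpleGraph V) : ℕ :=
  {v : V | (T.neighborSet v).ncard = 1}.ncard

/-- The leaf number: the largest number of leaves of a spanning tree. -/
noncomputable def leafNumber (G : SimpleGraph V) : ℕ :=
  sSup {l : ℕ | ∃ T : SimpleGraph V, T ≤ G ∧ T.IsTree ∧ leafCount T = l}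

theorem le_leafNumber (G T : SimpleGraph V) (h : T ≤ G) (hT : T.IsTree) :
    leafCount T ≤ leafNumber G := by
  apply le_csSup
  · refine ⟨Fintype.card V, ?_⟩
    rintro l ⟨T', -, -, rfl⟩
    unfold leafCount
    calc _ ≤ (Set.univ : Set V).ncard := Set.ncard_le_ncard (Set.subset_univ _) (Set.toFinite _)
      _ = Fintype.card V := by rw [Set.ncard_univ, Nat.card_eq_fintype_card]
  · exact ⟨T, h, hT, rfl⟩

open Classical in
theorem grow_univ (G : SimpleGraph V) (r : V) (par : V → V) (rank : V → ℕ)
    (hpar : ∀ v, v ≠ r → G.Adj v (par v) ∧ rank (par v) < rank v)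
    (S : Finset V) (hSr : r ∉ S) (hleaf : ∀ s ∈ S, ∀ v, v ≠ r → par v ≠ s) :
    S.card ≤ leafNumber G := by
  let T0 : SimpleGraph V :=
    { Adj := fun u v => (u ≠ r ∧ par u = v) ∨ (v ≠ r ∧ par v = u)
      symm := ⟨fun u v h => h.symm⟩
      loopless := ⟨fun u h => by
        rcases h with ⟨h1, h2⟩ | ⟨h1, h2⟩
        · have := (hpar u h1).1; rw [h2] at this; exact this.ne rfl
        · have := (hpar u h1).1; rw [h2] at this; exact this.ne rfl⟩ }
  have hT0 : T0 ≤ G := by
    intro u v h
    rcases h with ⟨h1, h2⟩ | ⟨h1, h2⟩
    · rw [← h2]; exact (hpar u h1).1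
    · rw [← h2]; exact (hpar v h1).1.symm
  have hreach : ∀ n : ℕ, ∀ v, rank v ≤ n → T0.Reachable v r := by
    intro n
    induction n with
    | zero =>
      intro v hv
      by_cases h : v = r
      · rw [h]
      · have := (hpar v h).2; omega
    | succ n ih =>
      intro v hv
      by_cases h : v = r
      · rw [h]
      · have h2 := (hpar v h).2
        have h3 : T0.Adj v (par v) := Or.inl ⟨h, rfl⟩
        exact h3.reachable.trans (ih (par v) (by omega))
  have hconn : T0.Connected := by
    haveI : Nonempty V := ⟨r⟩
    refine ⟨fun u v => (hreach _ u le_rfl).trans (hreach _ v le_rfl).symm⟩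
  obtain ⟨T, hT, hTree⟩ := hconn.exists_isTree_le
  refine le_trans ?_ (le_leafNumber G T (hT.trans hT0) hTree)
  unfold leafCount
  rw [← Set.ncard_coe_finset]
  apply Set.ncard_le_ncard _ (Set.toFinite _)
  intro s hs
  have hs' : s ∈ S := by simpa using hs
  have hsr : s ≠ r := fun h => hSr (h ▸ hs')
  have hsub : T.neighborSet s ⊆ {par s} := by
    intro w hw
    have hw' : T.Adj s w := hw
    rcases hT hw' with ⟨_, h2⟩ | ⟨h1, h2⟩
    · simp [h2]
    · exact absurd h2 (hleaf s hs' w h1)
  have hne : (T.neighborSet s).Nonempty := by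
    have hr : T.Reachable s r := hTree.1 s r
    obtain ⟨p⟩ := hr
    cases p with
    | nil => exact absurd rfl hsr
    | cons h _ => exact ⟨_, h⟩
  have : T.neighborSet s = {par s} := Set.Subset.antisymm hsub (by
    obtain ⟨w, hw⟩ := hne
    have := hsub hw
    simp only [Set.mem_singleton_iff] at this
    intro z hz
    simp only [Set.mem_singleton_iff] at hz
    rw [hz, ← this]; exact hw)
  show (T.neighborSet s).ncard = 1
  rw [this, Set.ncard_singleton]

open Classical in
theorem grow (G : SimpleGraph V) (hG : G.Connected) : ∀ (n : ℕ) (W : Finset V) (r : V)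
    (par : V → V) (rank : V → ℕ) (S : Finset V), Fintype.card V - W.card ≤ n → r ∈ W →
    (∀ v ∈ W, v ≠ r → par v ∈ W ∧ G.Adj v (par v) ∧ rank (par v) < rank v) →
    S ⊆ W → r ∉ S → (∀ s ∈ S, ∀ v ∈ W, v ≠ r → par v ≠ s) →
    S.card ≤ leafNumber G := by
  intro n
  induction n with
  | zero =>
    intro W r par rank S hn hr hpar hS hSr hleaf
    have hW : W = Finset.univ := by
      rw [← Finset.card_eq_iff_eq_univ]
      have := Finset.card_le_univ W
      omega
    subst hW
    exact grow_univ G r par rank (fun v hv => (hpar v (Finset.mem_univ _) hv).2) S hSr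
      (fun s hs v hv => hleaf s hs v (Finset.mem_univ _) hv)
  | succ n ih =>
    intro W r par rank S hn hr hpar hS hSr hleaf
    by_cases hW : W = Finset.univ
    · subst hW
      exact grow_univ G r par rank (fun v hv => (hpar v (Finset.mem_univ _) hv).2) S hSr
        (fun s hs v hv => hleaf s hs v (Finset.mem_univ _) hv)
    · -- an edge leaving W
      have : ∃ z, z ∉ W := by
        by_contra hcon
        push Not at hcon
        exact hW (Finset.eq_univ_iff_forall.2 hcon)
      obtain ⟨z0, hz0⟩ := this
      have hex : ∃ w ∈ W, ∃ z, z ∉ W ∧ G.Adj z w := by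
        by_contra hcon
        push Not at hcon
        have : ∀ (a b : V), G.Reachable a b → a ∈ W → b ∈ W := by
          rintro a b ⟨p⟩
          induction p with
          | nil => exact fun h => h
          | @cons a b c h p ihp =>
            intro ha
            apply ihp
            by_contra hb
            exact hcon a ha b hb h.symm
        exact hz0 (this r z0 (hG r z0) hr)
      obtain ⟨w, hw, z, hz, hzw⟩ := hex
      have hwz : w ≠ z := fun h => hz (h ▸ hw)
      have hrz : r ≠ z := fun h => hz (h ▸ hr)
      have key := ih (insert z W) r (fun v => if v = z then w else par v)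
        (fun v => if v = z then rank w + 1 else rank v) (insert z (S.erase w))
        (by rw [Finset.card_insert_of_notMem hz]; omega)
        (Finset.mem_insert_of_mem hr) ?_ ?_ ?_ ?_
      · have h1 : z ∉ S.erase w := fun h => hz (hS (Finset.mem_of_mem_erase h))
        rw [Finset.card_insert_of_notMem h1] at key
        have h2 : S.card ≤ (S.erase w).card + 1 := by
          have := Finset.pred_card_le_card_erase (s := S) (a := w)
          omega
        omega
      · intro v hv hvr
        by_cases hvz : v = z
        · subst hvz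
          simp only [if_true, if_neg hwz]
          exact ⟨Finset.mem_insert_of_mem hw, hzw, Nat.lt_succ_self _⟩
        · have hvW : v ∈ W := by
            rcases Finset.mem_insert.1 hv with h | h
            · exact absurd h hvz
            · exact h
          obtain ⟨h1, h2, h3⟩ := hpar v hvW hvr
          have h4 : par v ≠ z := fun h => hz (h ▸ h1)
          simp only [if_neg hvz, if_neg h4]
          exact ⟨Finset.mem_insert_of_mem h1, h2, h3⟩
      · intro s hs
        rcases Finset.mem_insert.1 hs with h | h
        · rw [h]; exact Finset.mem_insert_self _ _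
        · exact Finset.mem_insert_of_mem (hS (Finset.mem_of_mem_erase h))
      · intro h
        rcases Finset.mem_insert.1 h with h | h
        · exact hrz h
        · exact hSr (Finset.mem_of_mem_erase h)
      · intro s hs v hv hvr
        by_cases hvz : v = z
        · subst hvz
          simp only [if_true]
          rcases Finset.mem_insert.1 hs with h | h
          · rw [h]; exact hwz
          · exact (Finset.ne_of_mem_erase h).symm
        · have hvW : v ∈ W := by
            rcases Finset.mem_insert.1 hv with h | h
            · exact absurd h hvz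
            · exact h
          simp only [if_neg hvz]
          rcases Finset.mem_insert.1 hs with h | h
          · rw [h]; exact fun h' => hz (h' ▸ (hpar v hvW hvr).1)
          · exact hleaf s (Finset.mem_of_mem_erase h) v hvW hvr

open Classical in
/-- Index form: an enumeration of distinct vertices with a parent function. -/
theorem grow_idx (G : SimpleGraph V) (hG : G.Connected) (N : ℕ) (φ : ℕ → V)
    (hφ : ∀ i < N, ∀ j < N, φ i = φ j → i = j) (r : ℕ) (hr : r < N) (par rank : ℕ → ℕ)
    (h : ∀ i < N, i ≠ r → par i < N ∧ G.Adj (φ i) (φ (par i)) ∧ rank (par i) < rank i)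
    (S : Finset ℕ) (hS : ∀ s ∈ S, s < N ∧ s ≠ r ∧ ∀ i < N, i ≠ r → par i ≠ s) :
    S.card ≤ leafNumber G := by
  let idx : V → ℕ := fun v => if hv : ∃ i, i < N ∧ φ i = v then hv.choose else 0
  have hidx : ∀ i < N, idx (φ i) = i := by
    intro i hi
    have hv : ∃ j, j < N ∧ φ j = φ i := ⟨i, hi, rfl⟩
    have : idx (φ i) = hv.choose := dif_pos hv
    rw [this]
    exact hφ _ hv.choose_spec.1 _ hi hv.choose_spec.2
  have hmem : ∀ v, v ∈ (Finset.range N).image φ ↔ ∃ i, i < N ∧ φ i = v := by
    intro v; simp
  have key := grow G hG _ ((Finset.range N).image φ) (φ r) (fun v => φ (par (idx v)))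
    (fun v => rank (idx v)) (S.image φ) le_rfl ((hmem _).2 ⟨r, hr, rfl⟩) ?_ ?_ ?_ ?_
  · rwa [Finset.card_image_of_injOn] at key
    intro a ha b hb hab
    exact hφ a (hS a ha).1 b (hS b hb).1 hab
  · intro v hv hvr
    obtain ⟨i, hi, rfl⟩ := (hmem v).1 hv
    have hir : i ≠ r := fun h => hvr (by rw [h])
    obtain ⟨h1, h2, h3⟩ := h i hi hir
    simp only [hidx i hi, hidx _ h1]
    exact ⟨(hmem _).2 ⟨_, h1, rfl⟩, h2, h3⟩
  · intro v hv
    obtain ⟨s, hs, rfl⟩ := Finset.mem_image.1 hv
    exact (hmem _).2 ⟨s, (hS s hs).1, rfl⟩
  · intro hv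
    obtain ⟨s, hs, hs2⟩ := Finset.mem_image.1 hv
    exact (hS s hs).2.1 (hφ s (hS s hs).1 r hr hs2)
  · intro s hs v hv hvr
    obtain ⟨s', hs', rfl⟩ := Finset.mem_image.1 hs
    obtain ⟨i, hi, rfl⟩ := (hmem v).1 hv
    have hir : i ≠ r := fun h => hvr (by rw [h])
    simp only [hidx i hi]
    intro hcon
    exact (hS s' hs').2.2 i hi hir (hφ _ (h i hi hir).1 _ (hS s' hs').1 hcon)

end Pool.Agent.Q267.LN
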