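import Pool.Agent.Q267.LN.Base

set_option autoImplicit false

/-!
Consequences of the maximality of a path.
-/

namespace Pool.Agent.Q267.LN

variable {V : Type*}

/-- the first `m` values of `x` are distinct and consecutive ones are adjacent -/
def IsP (G : SimpleGraph V) (m : ℕ) (x : ℕ → V) : Prop :=
  (∀ i < m, ∀ j < m, x i = x j → i = j) ∧ ∀ i, i + 1 < m → G.Adj (x i) (x (i + 1))

theorem noPath (G : SimpleGraph V) (m N : ℕ) (φ : ℕ → V)
    (hmax : ∀ z, ¬ IsP G (m + 1) z)
    (hφ : ∀ i < N, ∀ j < N, φ i = φ j → i = j) (σ : ℕ → ℕ)
    (h1 : ∀ j < m + 1, σ j < N) (h2 : ∀ i < m + 1, ∀ j < m + 1, σ i = σ j → i = j)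
    (h3 : ∀ i, i + 1 < m + 1 → G.Adj (φ (σ i)) (φ (σ (i + 1)))) : False :=
  hmax (fun i => φ (σ i))
    ⟨fun i hi j hj h => h2 i hi j hj (hφ _ (h1 i hi) _ (h1 j hj) h), h3⟩

section
variable (G : SimpleGraph V) (m N : ℕ) (φ : ℕ → V) (hmax : ∀ z, ¬ IsP G (m + 1) z)
  (hφ : ∀ i < N, ∀ j < N, φ i = φ j → i = j) (hN : m < N)
  (adjn : ∀ i, i + 1 < m → G.Adj (φ i) (φ (i + 1)))
include hmax hφ hN adjn

theorem f1 (hm : 0 < m) (h : G.Adj (φ m) (φ 0)) : False := by
  refine noPath G m N φ hmax hφ (fun j => if j = 0 then m else j - 1) ?_ ?_ ?_
  · intro j hj; split_ifs <;> omega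
  · intro i hi j hj; split_ifs <;> omega
  · intro i hi
    by_cases h0 : i = 0
    · subst h0; simpa using h
    · simp only [if_neg h0, if_neg (show i + 1 ≠ 0 by omega)]
      have := adjn (i - 1) (by omega)
      rwa [show i - 1 + 1 = i + 1 - 1 by omega] at this

theorem f1' (hm : 0 < m) (h : G.Adj (φ m) (φ (m - 1))) : False := by
  refine noPath G m N φ hmax hφ (fun j => j) ?_ ?_ ?_
  · intro j hj; omega
  · intro i hi j hj h; exact h
  · intro i hi
    by_cases h0 : i + 1 = m
    · have : i = m - 1 := by omega
      rw [h0, this]; exact h.symm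
    · exact adjn i (by omega)

theorem f2 (t : ℕ) (ht : t + 1 < m) (h0 : G.Adj (φ 0) (φ (t + 1))) (h : G.Adj (φ m) (φ t)) :
    False := by
  refine noPath G m N φ hmax hφ
    (fun j => if j = 0 then m else if j ≤ t + 1 then t + 1 - j else j - 1) ?_ ?_ ?_
  · intro j hj; split_ifs <;> omega
  · intro i hi j hj; split_ifs <;> omega
  · intro i hi
    by_cases hi0 : i = 0
    · subst hi0
      simp only [if_true, if_neg (show (0:ℕ) + 1 ≠ 0 by omega),
        if_pos (show 0 + 1 ≤ t + 1 by omega)]
      rwa [show t + 1 - (0 + 1) = t by omega]
    · by_cases hi1 : i + 1 ≤ t + 1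
      · simp only [if_neg hi0, if_pos (show i ≤ t + 1 by omega),
          if_neg (show i + 1 ≠ 0 by omega), if_pos hi1]
        have := (adjn (t + 1 - (i + 1)) (by omega)).symm
        rwa [show t + 1 - (i + 1) + 1 = t + 1 - i by omega] at this
      · by_cases hi2 : i = t + 1
        · subst hi2
          simp only [if_neg hi0, le_refl, if_true, if_neg (show t + 1 + 1 ≠ 0 by omega),
            if_neg (show ¬ t + 1 + 1 ≤ t + 1 by omega)]
          rwa [show t + 1 - (t + 1) = 0 by omega, show t + 1 + 1 - 1 = t + 1 by omega]
        · simp only [if_neg hi0, if_neg (show ¬ i ≤ t + 1 by omega),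
            if_neg (show i + 1 ≠ 0 by omega), if_neg hi1]
          have := adjn (i - 1) (by omega)
          rwa [show i - 1 + 1 = i + 1 - 1 by omega] at this

theorem f2' (q : ℕ) (hq : q + 1 < m) (h0 : G.Adj (φ (m - 1)) (φ q))
    (h : G.Adj (φ m) (φ (q + 1))) : False := by
  refine noPath G m N φ hmax hφ
    (fun j => if j = m then m else if j ≤ q then j else m + q - j) ?_ ?_ ?_
  · intro j hj; split_ifs <;> omega
  · intro i hi j hj; split_ifs <;> omega
  · intro i hi
    by_cases hi0 : i + 1 = m
    · simp only [if_pos hi0, if_neg (show i ≠ m by omega), if_neg (show ¬ i ≤ q by omega)]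
      rw [show m + q - i = q + 1 by omega]
      exact h.symm
    · by_cases hi1 : i + 1 ≤ q
      · simp only [if_neg hi0, if_neg (show i ≠ m by omega), if_pos hi1,
          if_pos (show i ≤ q by omega)]
        exact adjn i (by omega)
      · by_cases hi2 : i = q
        · subst hi2
          simp only [if_neg hi0, if_neg (show i ≠ m by omega), if_neg hi1, le_refl, if_true]
          rw [show m + i - (i + 1) = m - 1 by omega]
          exact h0.symm
        · simp only [if_neg hi0, if_neg (show i ≠ m by omega), if_neg hi1,
            if_neg (show ¬ i ≤ q by omega)]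
          have := (adjn (m + q - (i + 1)) (by omega)).symm
          rwa [show m + q - (i + 1) + 1 = m + q - i by omega] at this

theorem f3 (i t : ℕ) (hi : 1 ≤ i) (him : i < m) (ht : t < m) (h0 : G.Adj (φ 0) (φ i))
    (h1 : G.Adj (φ (m - 1)) (φ (i - 1))) (h : G.Adj (φ m) (φ t)) : False := by
  rcases Nat.lt_or_ge t i with hti | hti
  · refine noPath G m N φ hmax hφ
      (fun j => if j + t + 1 < i then t + 1 + j else if j + t + 1 < m then m + i - t - 2 - j
        else if j < m then j + t + 1 - m else m) ?_ ?_ ?_
    · intro j hj; split_ifs <;> omega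
    · intro a ha b hb; split_ifs <;> omega
    · intro j hj
      by_cases c1 : j + 1 + t + 1 < i
      · simp only [if_pos c1, if_pos (show j + t + 1 < i by omega)]
        have := adjn (t + 1 + j) (by omega)
        rwa [show t + 1 + j + 1 = t + 1 + (j + 1) by omega] at this
      · by_cases c2 : j + t + 1 < i
        · simp only [if_pos c2, if_neg c1]
          by_cases c3 : j + 1 + t + 1 < m
          · simp only [if_pos c3]
            rw [show t + 1 + j = i - 1 by omega, show m + i - t - 2 - (j + 1) = m - 1 by omega]
            exact h1.symm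
          · omega
        · simp only [if_neg c2, if_neg c1]
          by_cases c3 : j + 1 + t + 1 < m
          · simp only [if_pos c3, if_pos (show j + t + 1 < m by omega)]
            have := (adjn (m + i - t - 2 - (j + 1)) (by omega)).symm
            rwa [show m + i - t - 2 - (j + 1) + 1 = m + i - t - 2 - j by omega] at this
          · by_cases c4 : j + t + 1 < m
            · simp only [if_pos c4, if_neg c3]
              by_cases c5 : j + 1 < m
              · simp only [if_pos c5]
                rw [show m + i - t - 2 - j = i by omega, show j + 1 + t + 1 - m = 0 by omega]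
                exact h0.symm
              · simp only [if_neg c5]
                rw [show m + i - t - 2 - j = i - t - 1 by omega]
                omega
            · simp only [if_neg c4, if_neg c3]
              by_cases c5 : j + 1 < m
              · simp only [if_pos c5, if_pos (show j < m by omega)]
                have := adjn (j + t + 1 - m) (by omega)
                rwa [show j + t + 1 - m + 1 = j + 1 + t + 1 - m by omega] at this
              · simp only [if_neg c5, if_pos (show j < m by omega)]
                rw [show j + t + 1 - m = t by omega]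
                exact h.symm
  · refine noPath G m N φ hmax hφ
      (fun j => if j + i < t then t - 1 - j else if j < t then j + i - t
        else if j < m then m - 1 - (j - t) else m) ?_ ?_ ?_
    · intro j hj; split_ifs <;> omega
    · intro a ha b hb; split_ifs <;> omega
    · intro j hj
      by_cases c1 : j + 1 + i < t
      · simp only [if_pos c1, if_pos (show j + i < t by omega)]
        have := (adjn (t - 1 - (j + 1)) (by omega)).symm
        rwa [show t - 1 - (j + 1) + 1 = t - 1 - j by omega] at this
      · by_cases c2 : j + i < t
        · simp only [if_pos c2, if_neg c1, if_pos (show j + 1 < t by omega)]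
          rw [show t - 1 - j = i by omega, show j + 1 + i - t = 0 by omega]
          exact h0.symm
        · by_cases c3 : j + 1 < t
          · simp only [if_neg c2, if_neg c1, if_pos c3, if_pos (show j < t by omega)]
            have := adjn (j + i - t) (by omega)
            rwa [show j + i - t + 1 = j + 1 + i - t by omega] at this
          · by_cases c4 : j < t
            · simp only [if_neg c2, if_neg c1, if_neg c3, if_pos c4,
                if_pos (show j + 1 < m by omega)]
              rw [show j + i - t = i - 1 by omega, show m - 1 - (j + 1 - t) = m - 1 by omega]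
              exact h1.symm
            · by_cases c5 : j + 1 < m
              · simp only [if_neg c2, if_neg c1, if_neg c3, if_neg c4,
                  if_pos (show j < m by omega), if_pos c5]
                have := (adjn (m - 1 - (j + 1 - t)) (by omega)).symm
                rwa [show m - 1 - (j + 1 - t) + 1 = m - 1 - (j - t) by omega] at this
              · simp only [if_neg c2, if_neg c1, if_neg c3, if_neg c4,
                  if_pos (show j < m by omega), if_neg c5]
                rw [show m - 1 - (j - t) = t by omega]
                exact h.symm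

theorem f4 (t : ℕ) (ht : t + 1 < m) (h0 : G.Adj (φ m) (φ t)) (h1 : G.Adj (φ m) (φ (t + 1))) :
    False := by
  refine noPath G m N φ hmax hφ
    (fun j => if j ≤ t then j else if j = t + 1 then m else j - 1) ?_ ?_ ?_
  · intro j hj; split_ifs <;> omega
  · intro i hi j hj; split_ifs <;> omega
  · intro i hi
    by_cases c1 : i + 1 ≤ t
    · simp only [if_pos c1, if_pos (show i ≤ t by omega)]
      exact adjn i (by omega)
    · by_cases c2 : i = t
      · subst c2
        simp only [if_neg c1, le_refl, if_true]
        exact h0.symm
      · by_cases c3 : i = t + 1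
        · subst c3
          simp only [if_neg (show ¬ t + 1 ≤ t by omega), if_neg c1, if_true,
            if_neg (show t + 1 + 1 ≠ t + 1 by omega)]
          rwa [show t + 1 + 1 - 1 = t + 1 by omega]
        · simp only [if_neg (show ¬ i ≤ t by omega), if_neg c1, if_neg c3,
            if_neg (show i + 1 ≠ t + 1 by omega)]
          have := adjn (i - 1) (by omega)
          rwa [show i - 1 + 1 = i + 1 - 1 by omega] at this

end

section
variable (G : SimpleGraph V) (m N : ℕ) (φ : ℕ → V) (hmax : ∀ z, ¬ IsP G (m + 1) z)
  (hφ : ∀ i < N, ∀ j < N, φ i = φ j → i = j) (hN : m + 1 < N)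
  (adjn : ∀ i, i + 1 < m → G.Adj (φ i) (φ (i + 1)))
include hmax hφ hN adjn

theorem f5 (p q : ℕ) (hpq : p < q) (hq : q < m) (hqp : q ≤ p + 2)
    (h0 : G.Adj (φ m) (φ p)) (h1 : G.Adj (φ (m + 1)) (φ q)) (h : G.Adj (φ m) (φ (m + 1))) :
    False := by
  refine noPath G m N φ hmax hφ
    (fun j => if j ≤ p then j else if j = p + 1 then m else if j = p + 2 then m + 1
      else q + j - (p + 3)) ?_ ?_ ?_
  · intro j hj; split_ifs <;> omega
  · intro i hi j hj; split_ifs <;> omega
  · intro i hi
    by_cases c1 : i + 1 ≤ p
    · simp only [if_pos c1, if_pos (show i ≤ p by omega)]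
      exact adjn i (by omega)
    · by_cases c2 : i = p
      · subst c2
        simp only [if_neg c1, le_refl, if_true]
        exact h0.symm
      · by_cases c3 : i = p + 1
        · subst c3
          simp only [if_neg (show ¬ p + 1 ≤ p by omega), if_neg c1, if_true,
            if_neg (show p + 1 + 1 ≠ p + 1 by omega)]
          exact h
        · by_cases c4 : i = p + 2
          · subst c4
            simp only [if_neg (show ¬ p + 2 ≤ p by omega), if_neg c1, if_neg c3, if_true,
              if_neg (show p + 2 + 1 ≠ p + 1 by omega), if_neg (show p + 2 + 1 ≠ p + 2 by omega)]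
            rwa [show q + (p + 2 + 1) - (p + 3) = q by omega]
          · simp only [if_neg (show ¬ i ≤ p by omega), if_neg c1, if_neg c3, if_neg c4,
              if_neg (show i + 1 ≠ p + 1 by omega), if_neg (show i + 1 ≠ p + 2 by omega)]
            have := adjn (q + i - (p + 3)) (by omega)
            rwa [show q + i - (p + 3) + 1 = q + (i + 1) - (p + 3) by omega] at this

theorem f6 (hm : 1 < m) (h1 : G.Adj (φ m) (φ 1)) (h : G.Adj (φ m) (φ (m + 1))) : False := by
  refine noPath G m N φ hmax hφ
    (fun j => if j = 0 then m + 1 else if j = 1 then m else j - 1) ?_ ?_ ?_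
  · intro j hj; split_ifs <;> omega
  · intro i hi j hj; split_ifs <;> omega
  · intro i hi
    by_cases c1 : i = 0
    · subst c1
      simpa using h.symm
    · by_cases c2 : i = 1
      · subst c2
        simpa using h1
      · simp only [if_neg c1, if_neg c2, if_neg (show i + 1 ≠ 0 by omega),
          if_neg (show i + 1 ≠ 1 by omega)]
        have := adjn (i - 1) (by omega)
        rwa [show i - 1 + 1 = i + 1 - 1 by omega] at this

end

end Pool.Agent.Q267.LN
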