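import Pool.Agent.Q267.LN.Base

set_option autoImplicit false

/-!
Explicit trees with many leaves built around a vertex outside a path.
-/

namespace Pool.Agent.Q267.LN

variable {V : Type*} [Fintype V]

/-- a vertex outside the path with at least three neighbours on it (and possibly further
neighbours outside, the indices between `m` and `N`) -/
theorem treeY (G : SimpleGraph V) (hG : G.Connected) (m N : ℕ) (φ : ℕ → V)
    (hN : m < N) (hφ : ∀ i < N, ∀ j < N, φ i = φ j → i = j)
    (adjn : ∀ i, i + 1 < m → G.Adj (φ i) (φ (i + 1)))
    (J : Finset ℕ) (hJ : ∀ j ∈ J, 0 < j ∧ j + 1 < m ∧ G.Adj (φ m) (φ j))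
    (hJ2 : ∀ j ∈ J, j + 1 ∉ J) (hJ3 : 3 ≤ J.card)
    (hout : ∀ i, m < i → i < N → G.Adj (φ i) (φ m)) :
    J.card + 2 + (N - m - 1) ≤ leafNumber G := by
  classical
  have adjp : ∀ i, 1 ≤ i → i < m → G.Adj (φ i) (φ (i - 1)) := by
    intro i h1 h2
    have := (adjn (i - 1) (by omega)).symm
    rwa [show i - 1 + 1 = i by omega] at this
  have hne : J.Nonempty := Finset.card_pos.1 (by omega)
  obtain ⟨v, hv, hvmin⟩ := J.exists_min_image id hne
  obtain ⟨u, hu, humax⟩ := J.exists_max_image id hne
  simp only [id] at hvmin humax
  have hc1 : (J.erase u).card = J.card - 1 := Finset.card_erase_of_mem hu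
  have hne2 : (J.erase u).Nonempty := Finset.card_pos.1 (by omega)
  obtain ⟨w, hw, hwmax⟩ := (J.erase u).exists_max_image id hne2
  simp only [id] at hwmax
  have hwJ : w ∈ J := Finset.mem_of_mem_erase hw
  have hwu : w < u := lt_of_le_of_ne (humax w hwJ) (Finset.ne_of_mem_erase hw)
  have hvu : v ≠ u := by
    intro h
    have : J ⊆ {v} := by
      intro j hj
      have h1 := hvmin j hj
      have h2 := humax j hj
      simp only [Finset.mem_singleton]; omega
    have := Finset.card_le_card this
    simp only [Finset.card_singleton] at this
    omega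
  have hvE : v ∈ J.erase u := Finset.mem_erase.2 ⟨hvu, hv⟩
  have hc2 : ((J.erase u).erase v).card = J.card - 2 := by
    rw [Finset.card_erase_of_mem hvE]; omega
  have hvw : v < w := by
    rcases lt_or_ge v w with h | h
    · exact h
    · exfalso
      have : J.erase u ⊆ {v} := by
        intro j hj
        have h1 := hwmax j hj
        have h2 := hvmin j (Finset.mem_of_mem_erase hj)
        simp only [Finset.mem_singleton]; omega
      have := Finset.card_le_card this
      simp only [Finset.card_singleton] at this
      omega
  have hmid : ∀ j ∈ (J.erase u).erase v, v < j ∧ j ≤ w := by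
    intro j hj
    have h1 := Finset.ne_of_mem_erase hj
    have h2 := Finset.mem_of_mem_erase hj
    have h3 := hvmin j (Finset.mem_of_mem_erase h2)
    exact ⟨by omega, hwmax j h2⟩
  have hbetween : ∀ j ∈ J, w < j → j = u := by
    intro j hj h
    by_contra h2
    have := hwmax j (Finset.mem_erase.2 ⟨h2, hj⟩)
    omega
  have hJv := hJ v hv
  have hJu := hJ u hu
  have hJw := hJ w hwJ
  have hv1 := hJ2 v hv
  have hw1 := hJ2 w hwJ
  have hwu2 : w + 1 < u := by
    rcases Nat.lt_or_ge (w + 1) u with h | h
    · exact h
    · exfalso
      have : w + 1 = u := by omega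
      exact hw1 (this ▸ hu)
  have hJm : ∀ j ∈ J, j < m := fun j hj => by have := hJ j hj; omega
  have key := grow_idx G hG N φ hφ m hN
    (fun i => if i ∈ J then m else if m < i then m
      else if i < v ∨ (w < i ∧ i < u) then i + 1 else i - 1)
    (fun i => if i = m then 0 else if i ∈ J then 1 else if m < i then 1
      else if i < v ∨ (w < i ∧ i < u) then 2 + (m - i) else 2 + i) ?_
    (insert 0 (insert (m - 1) (insert w (insert (w + 1)
      ((((J.erase u).erase v).image (fun j => j - 1)) ∪ Finset.Ico (m + 1) N))))) ?_
  · have hcard : ((((J.erase u).erase v).image (fun j => j - 1)) ∪ Finset.Ico (m + 1) N).card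
        = J.card - 2 + (N - m - 1) := by
      rw [Finset.card_union_of_disjoint, Finset.card_image_of_injOn, hc2, Nat.card_Ico]
      · omega
      · intro a ha b hb hab
        have h1 := hmid a ha
        have h2 := hmid b hb
        simp only at hab
        omega
      · rw [Finset.disjoint_left]
        intro a ha hb
        obtain ⟨j, hj, rfl⟩ := Finset.mem_image.1 ha
        have h1 := hmid j hj
        have h2 := Finset.mem_Ico.1 hb
        omega
    have hmem : ∀ a, a ∈ (((J.erase u).erase v).image (fun j => j - 1)) ∪ Finset.Ico (m + 1) N →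
        (v ≤ a ∧ a < w ∧ 0 < a) ∨ m < a := by
      intro a ha
      rcases Finset.mem_union.1 ha with h | h
      · obtain ⟨j, hj, rfl⟩ := Finset.mem_image.1 h
        have h1 := hmid j hj
        left; omega
      · have := Finset.mem_Ico.1 h
        right; omega
    rw [Finset.card_insert_of_notMem, Finset.card_insert_of_notMem,
      Finset.card_insert_of_notMem, Finset.card_insert_of_notMem, hcard] at key
    · omega
    · intro h; have := hmem _ h; omega
    · intro h
      rcases Finset.mem_insert.1 h with h | h
      · omega
      · have := hmem _ h; omega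
    · intro h
      rcases Finset.mem_insert.1 h with h | h
      · omega
      · rcases Finset.mem_insert.1 h with h | h
        · omega
        · have := hmem _ h; omega
    · intro h
      rcases Finset.mem_insert.1 h with h | h
      · omega
      · rcases Finset.mem_insert.1 h with h | h
        · omega
        · rcases Finset.mem_insert.1 h with h | h
          · omega
          · have := hmem _ h; omega
  · intro i hi him
    by_cases h1 : i ∈ J
    · have := hJ i h1
      simp only [if_pos h1, if_true]
      refine ⟨hN, this.2.2.symm, ?_⟩
      split_ifs <;> omega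
    · by_cases h2 : m < i
      · simp only [if_neg h1, if_pos h2, if_true]
        refine ⟨hN, hout i h2 hi, ?_⟩
        split_ifs <;> omega
      · by_cases h3 : i < v ∨ (w < i ∧ i < u)
        · simp only [if_neg h1, if_neg h2, if_pos h3]
          refine ⟨by omega, adjn i (by omega), ?_⟩
          by_cases h4 : i + 1 ∈ J
          · simp only [if_pos h4]
            split_ifs <;> omega
          · have h5 : i + 1 ≠ v := fun h => h4 (h ▸ hv)
            have h6 : i + 1 ≠ u := fun h => h4 (h ▸ hu)
            simp only [if_neg h4]
            split_ifs <;> omega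
        · simp only [if_neg h1, if_neg h2, if_neg h3]
          have h7 : i ≠ v := fun h => h1 (h ▸ hv)
          have h8 : i ≠ w := fun h => h1 (h ▸ hwJ)
          have h9 : i ≠ u := fun h => h1 (h ▸ hu)
          refine ⟨by omega, adjp i (by omega) (by omega), ?_⟩
          by_cases h4 : i - 1 ∈ J
          · simp only [if_pos h4]
            split_ifs <;> omega
          · have h5 : i - 1 ≠ v := fun h => h4 (h ▸ hv)
            have h6 : i - 1 ≠ u := fun h => h4 (h ▸ hu)
            simp only [if_neg h4]
            split_ifs <;> omega
  · intro s hs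
    have hcase : s = 0 ∨ s = m - 1 ∨ s = w ∨ s = w + 1 ∨ (s + 1 ∈ J ∧ v < s + 1 ∧ s + 1 ≤ w) ∨
        (m + 1 ≤ s ∧ s < N) := by
      rcases Finset.mem_insert.1 hs with h | h
      · exact Or.inl h
      · rcases Finset.mem_insert.1 h with h | h
        · exact Or.inr (Or.inl h)
        · rcases Finset.mem_insert.1 h with h | h
          · exact Or.inr (Or.inr (Or.inl h))
          · rcases Finset.mem_insert.1 h with h | h
            · exact Or.inr (Or.inr (Or.inr (Or.inl h)))
            · rcases Finset.mem_union.1 h with h | h
              · obtain ⟨j, hj, rfl⟩ := Finset.mem_image.1 h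
                have h1 := hmid j hj
                have h2 : j ∈ J := Finset.mem_of_mem_erase (Finset.mem_of_mem_erase hj)
                refine Or.inr (Or.inr (Or.inr (Or.inr (Or.inl ?_))))
                rw [show j - 1 + 1 = j by omega]
                exact ⟨h2, h1⟩
              · exact Or.inr (Or.inr (Or.inr (Or.inr (Or.inr (Finset.mem_Ico.1 h)))))
    refine ⟨by omega, by omega, ?_⟩
    intro i hi him
    by_cases h1 : i ∈ J
    · simp only [if_pos h1]; omega
    · by_cases h2 : m < i
      · simp only [if_neg h1, if_pos h2]; omega
      · have h7 : i ≠ v := fun h => h1 (h ▸ hv)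
        have h8 : i ≠ w := fun h => h1 (h ▸ hwJ)
        have h9 : i ≠ u := fun h => h1 (h ▸ hu)
        by_cases h3 : i < v ∨ (w < i ∧ i < u)
        · simp only [if_neg h1, if_neg h2, if_pos h3]
          intro h10
          rcases hcase with h | h | h | h | h | h
          · omega
          · omega
          · omega
          · omega
          · obtain ⟨h11, h12, h13⟩ := h
            have h14 : s + 1 ≠ v + 1 := fun h => hv1 (h ▸ h11)
            omega
          · omega
        · simp only [if_neg h1, if_neg h2, if_neg h3]
          intro h10
          rcases hcase with h | h | h | h | h | h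
          · omega
          · omega
          · omega
          · omega
          · obtain ⟨h11, h12, h13⟩ := h
            have : i = s + 1 := by omega
            exact h1 (this ▸ h11)
          · omega

/-- five leaves: an outside vertex with two far apart neighbours on the path and a further
neighbour outside -/
theorem treeZ1 (G : SimpleGraph V) (hG : G.Connected) (m a b : ℕ) (φ : ℕ → V)
    (hφ : ∀ i < m + 2, ∀ j < m + 2, φ i = φ j → i = j)
    (adjn : ∀ i, i + 1 < m → G.Adj (φ i) (φ (i + 1)))
    (ha : 0 < a) (hab : a + 3 ≤ b) (hb : b + 1 < m)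
    (hma : G.Adj (φ m) (φ a)) (hmb : G.Adj (φ m) (φ b)) (hm : G.Adj (φ m) (φ (m + 1))) :
    5 ≤ leafNumber G := by
  classical
  have adjp : ∀ i, 1 ≤ i → i < m → G.Adj (φ i) (φ (i - 1)) := by
    intro i h1 h2
    have := (adjn (i - 1) (by omega)).symm
    rwa [show i - 1 + 1 = i by omega] at this
  have := grow_idx G hG (m + 2) φ hφ m (by omega)
    (fun i => if i = a ∨ i = b ∨ i = m + 1 then m else if i = a + 1 ∨ b < i then i - 1
      else i + 1)
    (fun i => if i = m then 0 else if i = a ∨ i = b ∨ i = m + 1 then 1
      else if i = a + 1 then 2 else if b < i then 2 + i else 2 + (m - i)) ?_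
    {0, m - 1, m + 1, a + 1, a + 2} ?_
  · rw [Finset.card_insert_of_notMem (by simp; omega),
      Finset.card_insert_of_notMem (by simp; omega),
      Finset.card_insert_of_notMem (by simp; omega),
      Finset.card_insert_of_notMem (by simp),
      Finset.card_singleton] at this
    exact this
  · intro i hi him
    by_cases h1 : i = a ∨ i = b ∨ i = m + 1
    · simp only [if_pos h1, if_true]
      refine ⟨by omega, ?_, ?_⟩
      · rcases h1 with h | h | h
        · rw [h]; exact hma.symm
        · rw [h]; exact hmb.symm
        · rw [h]; exact hm.symm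
      · split_ifs <;> omega
    · by_cases h2 : i = a + 1 ∨ b < i
      · simp only [if_neg h1, if_pos h2]
        refine ⟨by omega, adjp i (by omega) (by omega), ?_⟩
        split_ifs <;> omega
      · simp only [if_neg h1, if_neg h2]
        refine ⟨by omega, adjn i (by omega), ?_⟩
        split_ifs <;> omega
  · intro s hs
    simp only [Finset.mem_insert, Finset.mem_singleton] at hs
    refine ⟨by omega, by omega, ?_⟩
    intro i hi hi0
    split_ifs <;> omega

/-- five leaves: two adjacent outside vertices attached far apart -/
theorem treeZ2 (G : SimpleGraph V) (hG : G.Connected) (m a q : ℕ) (φ : ℕ → V)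
    (hφ : ∀ i < m + 2, ∀ j < m + 2, φ i = φ j → i = j)
    (adjn : ∀ i, i + 1 < m → G.Adj (φ i) (φ (i + 1)))
    (ha : 0 < a) (haq : a + 5 ≤ q) (hq : q + 1 < m)
    (hma : G.Adj (φ m) (φ a)) (hma2 : G.Adj (φ m) (φ (a + 2)))
    (hm : G.Adj (φ m) (φ (m + 1))) (hmq : G.Adj (φ (m + 1)) (φ q)) :
    5 ≤ leafNumber G := by
  classical
  have adjp : ∀ i, 1 ≤ i → i < m → G.Adj (φ i) (φ (i - 1)) := by
    intro i h1 h2
    have := (adjn (i - 1) (by omega)).symm
    rwa [show i - 1 + 1 = i by omega] at this
  have := grow_idx G hG (m + 2) φ hφ m (by omega)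
    (fun i => if i = a ∨ i = a + 2 ∨ i = m + 1 then m else if i = q then m + 1
      else if i = a + 1 ∨ i = a + 3 ∨ q < i then i - 1
      else i + 1)
    (fun i => if i = m then 0 else if i = a ∨ i = a + 2 ∨ i = m + 1 then 1
      else if i = q then 2 else if i = a + 1 ∨ i = a + 3 then 3
      else if q < i then 3 + i else 3 + (m - i)) ?_
    {0, m - 1, a + 1, a + 3, a + 4} ?_
  · rw [Finset.card_insert_of_notMem (by simp; omega),
      Finset.card_insert_of_notMem (by simp; omega),
      Finset.card_insert_of_notMem (by simp),
      Finset.card_insert_of_notMem (by simp),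
      Finset.card_singleton] at this
    exact this
  · intro i hi him
    by_cases h1 : i = a ∨ i = a + 2 ∨ i = m + 1
    · simp only [if_pos h1, if_true]
      refine ⟨by omega, ?_, ?_⟩
      · rcases h1 with h | h | h
        · rw [h]; exact hma.symm
        · rw [h]; exact hma2.symm
        · rw [h]; exact hm.symm
      · split_ifs <;> omega
    · by_cases h3 : i = q
      · subst h3
        simp only [if_neg h1, if_true, or_true]
        refine ⟨by omega, hmq.symm, ?_⟩
        split_ifs <;> omega
      · by_cases h2 : i = a + 1 ∨ i = a + 3 ∨ q < i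
        · simp only [if_neg h1, if_neg h3, if_pos h2]
          refine ⟨by omega, adjp i (by omega) (by omega), ?_⟩
          split_ifs <;> omega
        · simp only [if_neg h1, if_neg h3, if_neg h2]
          refine ⟨by omega, adjn i (by omega), ?_⟩
          split_ifs <;> omega
  · intro s hs
    simp only [Finset.mem_insert, Finset.mem_singleton] at hs
    refine ⟨by omega, by omega, ?_⟩
    intro i hi hi0
    split_ifs <;> omega

end Pool.Agent.Q267.LN
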