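import Pool.Agent.Q267.LN.Trees
import Pool.Agent.Q267.LN.Trees2
import Pool.Agent.Q267.LN.Paths

set_option autoImplicit false

/-!
The longest path argument.
-/

namespace Pool.Agent.Q267.LN

variable {V : Type*}

/-- a path followed by further vertices -/
def ext (x : ℕ → V) (m : ℕ) (l : ℕ → V) : ℕ → V := fun i => if i < m then x i else l (i - m)

theorem ext_lt (x : ℕ → V) (m : ℕ) (l : ℕ → V) {i : ℕ} (h : i < m) : ext x m l i = x i := by
  simp [ext, h]

theorem ext_m (x : ℕ → V) (m : ℕ) (l : ℕ → V) : ext x m l m = l 0 := by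
  simp [ext]

theorem ext_add (x : ℕ → V) (m : ℕ) (l : ℕ → V) (j : ℕ) : ext x m l (m + j) = l j := by
  simp [ext]

theorem ext_inj (x : ℕ → V) (m N' : ℕ) (l : ℕ → V)
    (hx : ∀ i < m, ∀ j < m, x i = x j → i = j)
    (hl : ∀ i < N', ∀ j < N', l i = l j → i = j) (hd : ∀ i < N', ∀ j < m, l i ≠ x j) :
    ∀ i < m + N', ∀ j < m + N', ext x m l i = ext x m l j → i = j := by
  intro i hi j hj h
  unfold ext at h
  by_cases h1 : i < m
  · by_cases h2 : j < m
    · simp only [if_pos h1, if_pos h2] at h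
      exact hx i h1 j h2 h
    · simp only [if_pos h1, if_neg h2] at h
      exact absurd h.symm (hd (j - m) (by omega) i h1)
  · by_cases h2 : j < m
    · simp only [if_neg h1, if_pos h2] at h
      exact absurd h (hd (i - m) (by omega) j h2)
    · simp only [if_neg h1, if_neg h2] at h
      have := hl (i - m) (by omega) (j - m) (by omega) h
      omega

theorem ext_adjn (G : SimpleGraph V) (x : ℕ → V) (m : ℕ) (l : ℕ → V)
    (hx : ∀ i, i + 1 < m → G.Adj (x i) (x (i + 1))) :
    ∀ i, i + 1 < m → G.Adj (ext x m l i) (ext x m l (i + 1)) := by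
  intro i hi
  rw [ext_lt x m l hi, ext_lt x m l (show i < m by omega)]
  exact hx i hi

theorem isNb_ext (G : SimpleGraph V) (x : ℕ → V) (m : ℕ) (l : ℕ → V) (Nb : Finset ℕ)
    (h : IsNb G x m Nb) : IsNb G (ext x m l) m Nb := by
  intro j
  rw [h j]
  constructor
  · rintro ⟨h1, h2, h3⟩
    rw [ext_lt x m l h2, ext_lt x m l (show 0 < m by omega)]
    exact ⟨h1, h2, h3⟩
  · rintro ⟨h1, h2, h3⟩
    rw [ext_lt x m l h2, ext_lt x m l (show 0 < m by omega)] at h3
    exact ⟨h1, h2, h3⟩

/-- lists of two, three and four vertices -/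
def l2 (a b : V) : ℕ → V := fun n => if n = 0 then a else b
def l3 (a b c : V) : ℕ → V := fun n => if n = 0 then a else if n = 1 then b else c
def l4 (a b c d : V) : ℕ → V :=
  fun n => if n = 0 then a else if n = 1 then b else if n = 2 then c else d

theorem l1_inj (a : V) : ∀ i < 1, ∀ j < 1, (fun _ : ℕ => a) i = (fun _ : ℕ => a) j → i = j := by
  intro i hi j hj _; omega

theorem l2_inj (a b : V) (h : a ≠ b) : ∀ i < 2, ∀ j < 2, l2 a b i = l2 a b j → i = j := by
  intro i hi j hj h'
  interval_cases i <;> interval_cases j <;> simp_all [l2]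

theorem l3_inj (a b c : V) (h1 : a ≠ b) (h2 : a ≠ c) (h3 : b ≠ c) :
    ∀ i < 3, ∀ j < 3, l3 a b c i = l3 a b c j → i = j := by
  intro i hi j hj h'
  interval_cases i <;> interval_cases j <;> simp_all [l3]

theorem l4_inj (a b c d : V) (h1 : a ≠ b) (h2 : a ≠ c) (h3 : a ≠ d) (h4 : b ≠ c) (h5 : b ≠ d)
    (h6 : c ≠ d) : ∀ i < 4, ∀ j < 4, l4 a b c d i = l4 a b c d j → i = j := by
  intro i hi j hj h'
  interval_cases i <;> interval_cases j <;> simp_all [l4]

/-- the vertex `y` is not on the path -/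
def Out (m : ℕ) (x : ℕ → V) (y : V) : Prop := ∀ j < m, y ≠ x j

section
variable (G : SimpleGraph V) (m : ℕ) (x : ℕ → V) (hmax : ∀ z, ¬ IsP G (m + 1) z)
  (hP : IsP G m x)
include hmax hP

theorem g_pos (hm : 0 < m) (y : V) (hy : Out m x y) (t : ℕ) (ht : t < m)
    (h : G.Adj y (x t)) : 0 < t ∧ t + 1 < m := by
  have hφ := ext_inj x m 1 (fun _ => y) hP.1 (l1_inj y) (fun i _ j hj => hy j hj)
  have adjn := ext_adjn G x m (fun _ => y) hP.2
  have h0 : t ≠ 0 := by
    intro h0
    refine f1 G m (m + 1) _ hmax hφ (by omega) adjn hm ?_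
    rw [ext_m, ext_lt x m _ hm]
    rw [h0] at h; exact h
  have h1 : t ≠ m - 1 := by
    intro h0
    refine f1' G m (m + 1) _ hmax hφ (by omega) adjn hm ?_
    rw [ext_m, ext_lt x m _ (show m - 1 < m by omega)]
    rw [h0] at h; exact h
  omega

theorem g_start (hm : 0 < m) (v : V) (h : G.Adj (x 0) v) : ∃ i < m, x i = v := by
  by_contra hcon
  push Not at hcon
  have := g_pos G m x hmax hP hm v (fun j hj h' => hcon j hj h'.symm) 0 hm h.symm
  omega

theorem g_end (hm : 0 < m) (v : V) (h : G.Adj (x (m - 1)) v) : ∃ i < m, x i = v := by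
  by_contra hcon
  push Not at hcon
  have := g_pos G m x hmax hP hm v (fun j hj h' => hcon j hj h'.symm) (m - 1) (by omega) h.symm
  omega

theorem g_two (y : V) (hy : Out m x y) (t : ℕ) (ht : t + 1 < m)
    (h : G.Adj y (x t)) : ¬ G.Adj (x 0) (x (t + 1)) := by
  intro h0
  have hφ := ext_inj x m 1 (fun _ => y) hP.1 (l1_inj y) (fun i _ j hj => hy j hj)
  have adjn := ext_adjn G x m (fun _ => y) hP.2
  refine f2 G m (m + 1) _ hmax hφ (by omega) adjn t ht ?_ ?_
  · rw [ext_lt x m _ ht, ext_lt x m _ (show 0 < m by omega)]; exact h0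
  · rw [ext_m, ext_lt x m _ (show t < m by omega)]; exact h

theorem g_two' (y : V) (hy : Out m x y) (q : ℕ) (hq : q + 1 < m)
    (h : G.Adj y (x (q + 1))) : ¬ G.Adj (x (m - 1)) (x q) := by
  intro h0
  have hφ := ext_inj x m 1 (fun _ => y) hP.1 (l1_inj y) (fun i _ j hj => hy j hj)
  have adjn := ext_adjn G x m (fun _ => y) hP.2
  refine f2' G m (m + 1) _ hmax hφ (by omega) adjn q hq ?_ ?_
  · rw [ext_lt x m _ (show m - 1 < m by omega), ext_lt x m _ (show q < m by omega)]; exact h0
  · rw [ext_m, ext_lt x m _ hq]; exact h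

theorem g_cross (y : V) (hy : Out m x y) (t : ℕ) (ht : t < m) (h : G.Adj y (x t))
    (i : ℕ) (hi : 1 ≤ i) (him : i < m) (h0 : G.Adj (x 0) (x i)) :
    ¬ G.Adj (x (m - 1)) (x (i - 1)) := by
  intro h1
  have hφ := ext_inj x m 1 (fun _ => y) hP.1 (l1_inj y) (fun i _ j hj => hy j hj)
  have adjn := ext_adjn G x m (fun _ => y) hP.2
  refine f3 G m (m + 1) _ hmax hφ (by omega) adjn i t hi him ht ?_ ?_ ?_
  · rw [ext_lt x m _ him, ext_lt x m _ (show 0 < m by omega)]; exact h0
  · rw [ext_lt x m _ (show m - 1 < m by omega), ext_lt x m _ (show i - 1 < m by omega)]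
    exact h1
  · rw [ext_m, ext_lt x m _ ht]; exact h

theorem g_cons (y : V) (hy : Out m x y) (t : ℕ) (ht : t + 1 < m)
    (h : G.Adj y (x t)) : ¬ G.Adj y (x (t + 1)) := by
  intro h0
  have hφ := ext_inj x m 1 (fun _ => y) hP.1 (l1_inj y) (fun i _ j hj => hy j hj)
  have adjn := ext_adjn G x m (fun _ => y) hP.2
  refine f4 G m (m + 1) _ hmax hφ (by omega) adjn t ht ?_ ?_
  · rw [ext_m, ext_lt x m _ (show t < m by omega)]; exact h
  · rw [ext_m, ext_lt x m _ ht]; exact h0

theorem g_far (y c : V) (hy : Out m x y) (hc : Out m x c) (hyc : G.Adj y c) (p q : ℕ)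
    (hp : p < m) (hq : q < m) (hyp : G.Adj y (x p)) (hcq : G.Adj c (x q)) (hpq : p ≠ q) :
    p + 3 ≤ q ∨ q + 3 ≤ p := by
  rcases Nat.lt_or_ge p q with h | h
  · by_contra hcon
    have hφ := ext_inj x m 2 (l2 y c) hP.1 (l2_inj y c hyc.ne) (by
      intro i hi j hj; interval_cases i <;> simp [l2] <;> [exact hy j hj; exact hc j hj])
    have adjn := ext_adjn G x m (l2 y c) hP.2
    refine f5 G m (m + 2) _ hmax hφ (by omega) adjn p q h hq (by omega) ?_ ?_ ?_
    · rw [ext_m, ext_lt x m _ hp]; exact hyp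
    · rw [ext_add, ext_lt x m _ hq]; exact hcq
    · rw [ext_m, ext_add]; exact hyc
  · by_contra hcon
    have hφ := ext_inj x m 2 (l2 c y) hP.1 (l2_inj c y hyc.ne.symm) (by
      intro i hi j hj; interval_cases i <;> simp [l2] <;> [exact hc j hj; exact hy j hj])
    have adjn := ext_adjn G x m (l2 c y) hP.2
    refine f5 G m (m + 2) _ hmax hφ (by omega) adjn q p (by omega) hp (by omega) ?_ ?_ ?_
    · rw [ext_m, ext_lt x m _ hq]; exact hcq
    · rw [ext_add, ext_lt x m _ hp]; exact hyp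
    · rw [ext_m, ext_add]; exact hyc.symm

theorem g_six (hm : 1 < m) (y c : V) (hy : Out m x y) (hc : Out m x c) (hyc : G.Adj y c)
    (h : G.Adj y (x 1)) : False := by
  have hφ := ext_inj x m 2 (l2 y c) hP.1 (l2_inj y c hyc.ne) (by
    intro i hi j hj; interval_cases i <;> simp [l2] <;> [exact hy j hj; exact hc j hj])
  have adjn := ext_adjn G x m (l2 y c) hP.2
  refine f6 G m (m + 2) _ hmax hφ (by omega) adjn hm ?_ ?_
  · rw [ext_m, ext_lt x m _ hm]; exact h
  · rw [ext_m, ext_add]; exact hyc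

end

variable [Fintype V]

/-- number of neighbours -/
noncomputable def deg (G : SimpleGraph V) (v : V) : ℕ := (G.neighborSet v).ncard

theorem deg_le (G : SimpleGraph V) (v : V) (x : ℕ → V) (S : Finset ℕ)
    (h : ∀ w, G.Adj v w → ∃ i ∈ S, x i = w) : deg G v ≤ S.card := by
  classical
  have h1 : G.neighborSet v ⊆ ↑(S.image x) := by
    intro w hw
    obtain ⟨i, hi, hiw⟩ := h w hw
    simp only [Finset.coe_image, Set.mem_image, Finset.mem_coe]
    exact ⟨i, hi, hiw⟩
  calc deg G v ≤ (↑(S.image x) : Set V).ncard := Set.ncard_le_ncard h1 (Set.toFinite _)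
    _ = (S.image x).card := Set.ncard_coe_finset _
    _ ≤ S.card := Finset.card_image_le

theorem deg_le' (G : SimpleGraph V) (v c : V) (x : ℕ → V) (S : Finset ℕ)
    (h : ∀ w, G.Adj v w → (∃ i ∈ S, x i = w) ∨ w = c) : deg G v ≤ S.card + 1 := by
  classical
  have h1 : G.neighborSet v ⊆ ↑(insert c (S.image x)) := by
    intro w hw
    rcases h w hw with ⟨i, hi, hiw⟩ | h
    · simp only [Finset.coe_insert, Finset.coe_image]
      right
      exact ⟨i, hi, hiw⟩
    · simp only [Finset.coe_insert, Finset.coe_image]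
      left; exact h
  calc deg G v ≤ (↑(insert c (S.image x)) : Set V).ncard :=
        Set.ncard_le_ncard h1 (Set.toFinite _)
    _ = (insert c (S.image x)).card := Set.ncard_coe_finset _
    _ ≤ (S.image x).card + 1 := Finset.card_insert_le _ _
    _ ≤ S.card + 1 := by have := Finset.card_image_le (s := S) (f := x); omega

section
variable (G : SimpleGraph V) (m : ℕ) (x : ℕ → V) (hmax : ∀ z, ¬ IsP G (m + 1) z)
  (hP : IsP G m x)
include hmax hP

open Classical in
theorem exists_Nb (hm : 0 < m) : ∃ Nb : Finset ℕ, IsNb G x m Nb ∧ deg G (x 0) ≤ Nb.card + 1 := by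
  refine ⟨(Finset.range m).filter (fun j => 1 ≤ j ∧ j + 1 < m ∧ G.Adj (x 0) (x (j + 1))),
    ?_, ?_⟩
  · intro j
    simp only [Finset.mem_filter, Finset.mem_range]
    constructor
    · exact fun h => h.2
    · exact fun h => ⟨by omega, h⟩
  · set Nb := (Finset.range m).filter (fun j => 1 ≤ j ∧ j + 1 < m ∧ G.Adj (x 0) (x (j + 1)))
    have := deg_le G (x 0) x (insert 1 (Nb.image (· + 1))) (by
      intro w hw
      obtain ⟨i, hi, rfl⟩ := g_start G m x hmax hP hm w hw
      refine ⟨i, ?_, rfl⟩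
      have hi0 : i ≠ 0 := by rintro rfl; exact hw.ne rfl
      by_cases hi1 : i = 1
      · rw [hi1]; exact Finset.mem_insert_self _ _
      · apply Finset.mem_insert_of_mem
        apply Finset.mem_image.2
        refine ⟨i - 1, ?_, by omega⟩
        simp only [Nb, Finset.mem_filter, Finset.mem_range]
        refine ⟨by omega, by omega, by omega, ?_⟩
        rwa [show i - 1 + 1 = i by omega])
    have h2 := Finset.card_insert_le 1 (Nb.image (· + 1))
    have h3 := Finset.card_image_le (s := Nb) (f := (· + 1))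
    omega

/-- an attached outside vertex has at most one outside neighbour -/
theorem no_two_out (hG : G.Connected) (Nb : Finset ℕ) (hNb : IsNb G x m Nb)
    (hL : leafNumber G ≤ Nb.card + 2)
    (u z1 z2 : V) (hu : Out m x u) (t : ℕ) (ht : t < m) (hut : G.Adj u (x t))
    (h1 : Out m x z1) (h2 : Out m x z2) (hz : z1 ≠ z2) (a1 : G.Adj u z1) (a2 : G.Adj u z2) :
    False := by
  have hm : 0 < m := by omega
  obtain ⟨ht0, ht1⟩ := g_pos G m x hmax hP hm u hu t ht hut
  have hφ := ext_inj x m 3 (l3 u z1 z2) hP.1 (l3_inj u z1 z2 a1.ne a2.ne hz) (by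
    intro i hi j hj
    interval_cases i <;> simp [l3] <;> [exact hu j hj; exact h1 j hj; exact h2 j hj])
  have adjn := ext_adjn G x m (l3 u z1 z2) hP.2
  have e0 : ext x m (l3 u z1 z2) m = u := by rw [ext_m]; simp [l3]
  have e1 : ext x m (l3 u z1 z2) (m + 1) = z1 := by rw [ext_add]; simp [l3]
  have e2 : ext x m (l3 u z1 z2) (m + 2) = z2 := by rw [ext_add]; simp [l3]
  have := tree1 G hG m t (m + 3) (ext x m (l3 u z1 z2)) (by omega) hφ adjn ht1
    (by rw [e0, ext_lt x m _ ht]; exact hut)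
    (by rw [ext_lt x m _ ht1, ext_lt x m _ hm]; exact g_two G m x hmax hP u hu t ht1 hut)
    Nb (isNb_ext G x m _ Nb hNb) (fun _ => m) (by
      intro i hi1 hi2
      refine ⟨le_rfl, hi1, ?_⟩
      rcases (show i = m + 1 ∨ i = m + 2 by omega) with h | h
      · rw [h, e1, e0]; exact a1.symm
      · rw [h, e2, e0]; exact a2.symm) {m + 1, m + 2} (by
      intro s hs
      simp only [Finset.mem_insert, Finset.mem_singleton] at hs
      refine ⟨by omega, by omega, ?_⟩
      intro i _ _
      omega)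
  rw [Finset.card_insert_of_notMem (by simp), Finset.card_singleton] at this
  omega

theorem no_two_out4 (hG : G.Connected) (Nb : Finset ℕ) (hNb : IsNb G x m Nb)
    (hL : leafNumber G ≤ Nb.card + 2)
    (u c z1 z2 : V) (hu : Out m x u) (hc : Out m x c) (huc : G.Adj u c)
    (t : ℕ) (ht : t < m) (hut : G.Adj u (x t))
    (h1 : Out m x z1) (h2 : Out m x z2) (hz : z1 ≠ z2) (a1 : G.Adj c z1) (a2 : G.Adj c z2)
    (b1 : z1 ≠ u) (b2 : z2 ≠ u) :
    False := by
  have hm : 0 < m := by omega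
  obtain ⟨ht0, ht1⟩ := g_pos G m x hmax hP hm u hu t ht hut
  have hφ := ext_inj x m 4 (l4 u c z1 z2) hP.1
    (l4_inj u c z1 z2 huc.ne b1.symm b2.symm a1.ne a2.ne hz) (by
    intro i hi j hj
    interval_cases i <;> simp [l4] <;>
      [exact hu j hj; exact hc j hj; exact h1 j hj; exact h2 j hj])
  have adjn := ext_adjn G x m (l4 u c z1 z2) hP.2
  have e0 : ext x m (l4 u c z1 z2) m = u := by rw [ext_m]; simp [l4]
  have e1 : ext x m (l4 u c z1 z2) (m + 1) = c := by rw [ext_add]; simp [l4]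
  have e2 : ext x m (l4 u c z1 z2) (m + 2) = z1 := by rw [ext_add]; simp [l4]
  have e3 : ext x m (l4 u c z1 z2) (m + 3) = z2 := by rw [ext_add]; simp [l4]
  have := tree1 G hG m t (m + 4) (ext x m (l4 u c z1 z2)) (by omega) hφ adjn ht1
    (by rw [e0, ext_lt x m _ ht]; exact hut)
    (by rw [ext_lt x m _ ht1, ext_lt x m _ hm]; exact g_two G m x hmax hP u hu t ht1 hut)
    Nb (isNb_ext G x m _ Nb hNb) (fun i => if i = m + 1 then m else m + 1) (by
      intro i hi1 hi2
      rcases (show i = m + 1 ∨ i = m + 2 ∨ i = m + 3 by omega) with h | h | h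
      · rw [if_pos h, h, e1, e0]; exact ⟨le_rfl, by omega, huc.symm⟩
      · rw [if_neg (by omega), h, e2, e1]; exact ⟨by omega, by omega, a1.symm⟩
      · rw [if_neg (by omega), h, e3, e1]; exact ⟨by omega, by omega, a2.symm⟩)
    {m + 2, m + 3} (by
      intro s hs
      simp only [Finset.mem_insert, Finset.mem_singleton] at hs
      refine ⟨by omega, by omega, ?_⟩
      intro i _ _
      split_ifs <;> omega)
  rw [Finset.card_insert_of_notMem (by simp), Finset.card_singleton] at this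
  omega

end

end Pool.Agent.Q267.LN
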