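import Pool.Agent.Q267.LN.Core

set_option autoImplicit false

/-!
The main theorem on leaf number and Hamiltonian paths.
-/

namespace Pool.Agent.Q267.LN

variable {V : Type*} [Fintype V]

theorem rev_isP (G : SimpleGraph V) (m : ℕ) (x : ℕ → V) (hP : IsP G m x) :
    IsP G m (fun i => x (m - 1 - i)) := by
  refine ⟨?_, ?_⟩
  · intro i hi j hj h
    have := hP.1 _ (show m - 1 - i < m by omega) _ (show m - 1 - j < m by omega) h
    omega
  · intro i hi
    have := (hP.2 (m - 1 - (i + 1)) (by omega)).symm
    rwa [show m - 1 - (i + 1) + 1 = m - 1 - i by omega] at this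

theorem rev_out (m : ℕ) (x : ℕ → V) (y : V) (hy : Out m x y) :
    Out m (fun i => x (m - 1 - i)) y := fun j hj => hy _ (by omega)

section
variable (G : SimpleGraph V) (m : ℕ) (x : ℕ → V) (hmax : ∀ z, ¬ IsP G (m + 1) z)
  (hP : IsP G m x)
include hmax hP

open Classical in
theorem main3 (hG : G.Connected) (Nb : Finset ℕ) (hNb : IsNb G x m Nb)
    (hL : leafNumber G ≤ Nb.card + 2) (hd : 3 ≤ deg G (x (m - 1)))
    (y : V) (hy : Out m x y) (t : ℕ) (ht : t < m) (hyt : G.Adj y (x t)) : t + 2 = m := by
  have hm : 0 < m := by omega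
  obtain ⟨ht0, ht1⟩ := g_pos G m x hmax hP hm y hy t ht hyt
  have hφ := ext_inj x m 1 (fun _ => y) hP.1 (l1_inj y) (fun i _ j hj => hy j hj)
  have adjn := ext_adjn G x m (fun _ => y) hP.2
  have e0 : ext x m (fun _ => y) m = y := by rw [ext_m]
  have el : ∀ i < m, ext x m (fun _ => y) i = x i := fun i hi => ext_lt x m _ hi
  have hmt : G.Adj (ext x m (fun _ => y) m) (ext x m (fun _ => y) t) := by
    rw [e0, el t ht]; exact hyt
  have ht2 : ¬ G.Adj (ext x m (fun _ => y) 0) (ext x m (fun _ => y) (t + 1)) := by
    rw [el 0 hm, el _ ht1]; exact g_two G m x hmax hP y hy t ht1 hyt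
  have hNb' := isNb_ext G x m (fun _ => y) Nb hNb
  -- the largest neighbour of the start
  have h01 : G.Adj (x 0) (x 1) := hP.2 0 (by omega)
  obtain ⟨I, hI, hImax⟩ := ((Finset.range m).filter (fun i => G.Adj (x 0) (x i))).exists_max_image
    id ⟨1, by simp only [Finset.mem_filter, Finset.mem_range]; exact ⟨by omega, h01⟩⟩
  simp only [id, Finset.mem_filter, Finset.mem_range] at hI hImax
  have hI1 : 1 ≤ I := hImax 1 ⟨by omega, h01⟩
  have hcross := g_cross G m x hmax hP y hy t ht hyt
  have hend : G.Adj (x (m - 1)) (x (m - 1 - 1)) := by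
    have := (hP.2 (m - 1 - 1) (by omega)).symm
    rwa [show m - 1 - 1 + 1 = m - 1 by omega] at this
  have hIm : I + 1 < m := by
    by_contra hcon
    have : I = m - 1 := by omega
    exact hcross (m - 1) (by omega) (by omega) (this ▸ hI.2) hend
  have hI' : ∀ i < m, G.Adj (ext x m (fun _ => y) 0) (ext x m (fun _ => y) i) → i ≤ I := by
    intro i hi h
    rw [el 0 hm, el i hi] at h
    exact hImax i ⟨hi, h⟩
  by_contra hne
  by_cases hex : ∃ q, q < I ∧ G.Adj (x (m - 1)) (x q)
  · obtain ⟨q, hq, hmq⟩ := hex
    have hq2 : ¬ G.Adj (x 0) (x (q + 1)) := by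
      intro h
      have := hcross (q + 1) (by omega) (by omega) h
      rw [show q + 1 - 1 = q by omega] at this
      exact this hmq
    have hp : ∃ p, I ≤ p ∧ p + 1 < m ∧ t ≠ p ∧ t ≠ p + 1 := by
      rcases Nat.lt_or_ge t I with h | h
      · exact ⟨I, le_rfl, hIm, by omega, by omega⟩
      · exact ⟨m - 2, by omega, by omega, by omega, by omega⟩
    obtain ⟨p, hp1, hp2, hp3, hp4⟩ := hp
    have := tree3 G hG m t p q I (ext x m (fun _ => y)) hφ adjn ht0 ht1 hmt ht2 Nb hNb' hI'
      hq hp1 hp2 (by rw [el _ (show m - 1 < m by omega), el q (by omega)]; exact hmq)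
      (by rw [el 0 hm, el (q + 1) (by omega)]; exact hq2) hp3 hp4
    omega
  · push Not at hex
    set Q := (Finset.range m).filter (fun q => q + 2 < m ∧ G.Adj (x (m - 1)) (x q)) with hQ
    have hQc : 2 ≤ Q.card := by
      have := deg_le G (x (m - 1)) x (insert (m - 2) Q) (by
        intro w hw
        obtain ⟨i, hi, rfl⟩ := g_end G m x hmax hP hm w hw
        refine ⟨i, ?_, rfl⟩
        have hi0 : i ≠ m - 1 := by rintro rfl; exact hw.ne rfl
        by_cases hi1 : i = m - 2
        · rw [hi1]; exact Finset.mem_insert_self _ _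
        · apply Finset.mem_insert_of_mem
          simp only [hQ, Finset.mem_filter, Finset.mem_range]
          exact ⟨hi, by omega, hw⟩)
      have h2 := Finset.card_insert_le (m - 2) Q
      omega
    obtain ⟨a, ha, b, hb, hab⟩ := Finset.one_lt_card.1 (show 1 < Q.card by omega)
    -- order the two elements
    obtain ⟨q, q', hq, hq', hqq⟩ : ∃ q q', q ∈ Q ∧ q' ∈ Q ∧ q < q' := by
      rcases Nat.lt_or_ge a b with h | h
      · exact ⟨a, b, ha, hb, h⟩
      · exact ⟨b, a, hb, ha, by omega⟩
    simp only [hQ, Finset.mem_filter, Finset.mem_range] at hq hq'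
    have hIq : I ≤ q := by
      by_contra hcon
      exact hex q (by omega) hq.2.2
    have htq : t ≠ q + 1 := by
      intro h
      exact g_two' G m x hmax hP y hy q (by omega) (h ▸ hyt) hq.2.2
    have htq' : t ≠ q' + 1 := by
      intro h
      exact g_two' G m x hmax hP y hy q' (by omega) (h ▸ hyt) hq'.2.2
    have := tree4 G hG m t q q' I (ext x m (fun _ => y)) hφ adjn ht0 ht1 hmt ht2 Nb hNb' hI' hI1
      hIq hqq hq'.2.1
      (by rw [el _ (show m - 1 < m by omega), el q (by omega)]; exact hq.2.2)
      (by rw [el _ (show m - 1 < m by omega), el q' (by omega)]; exact hq'.2.2) htq htq'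
    omega

theorem main2 (hG : G.Connected) (hL : leafNumber G ≤ 3) (hd : 2 ≤ deg G (x 0))
    (y : V) (hy : Out m x y) (t : ℕ) (ht : t < m) (hyt : G.Adj y (x t)) : t = 1 ∧ 4 ≤ m := by
  have hm : 0 < m := by omega
  obtain ⟨ht0, ht1⟩ := g_pos G m x hmax hP hm y hy t ht hyt
  obtain ⟨Nb, hNb, hNb2⟩ := exists_Nb G m x hmax hP hm
  have hne : Nb.Nonempty := Finset.card_pos.1 (by omega)
  obtain ⟨j, hj⟩ := hne
  obtain ⟨hj1, hj2, hj3⟩ := (hNb j).1 hj
  have hcross := g_cross G m x hmax hP y hy t ht hyt
  have hend : G.Adj (x (m - 1)) (x (m - 1 - 1)) := by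
    have := (hP.2 (m - 1 - 1) (by omega)).symm
    rwa [show m - 1 - 1 + 1 = m - 1 by omega] at this
  have hb : j + 1 + 1 < m := by
    by_contra hcon
    have h : j + 1 = m - 1 := by omega
    exact hcross (m - 1) (by omega) (by omega) (h ▸ hj3) hend
  refine ⟨?_, by omega⟩
  by_contra hne1
  have hφ := ext_inj x m 1 (fun _ => y) hP.1 (l1_inj y) (fun i _ j hj => hy j hj)
  have adjn := ext_adjn G x m (fun _ => y) hP.2
  have := tree5 G hG m t 0 (j + 1) (ext x m (fun _ => y)) hφ adjn ht0 ht1
    (by rw [ext_m, ext_lt x m _ ht]; exact hyt)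
    (by rw [ext_lt x m _ hm, ext_lt x m _ hj2]; exact hj3) hb (by omega) (by omega) (by omega)
  omega

theorem caseBoth3 (hG : G.Connected) (k : ℕ) (hk : 3 ≤ k) (hL : leafNumber G ≤ k + 1)
    (h0 : k ≤ deg G (x 0)) (h1 : k ≤ deg G (x (m - 1)))
    (y : V) (hy : Out m x y) (t : ℕ) (ht : t < m) (hyt : G.Adj y (x t)) : False := by
  have hm : 0 < m := by omega
  obtain ⟨ht0, ht1⟩ := g_pos G m x hmax hP hm y hy t ht hyt
  obtain ⟨Nb, hNb, hNb2⟩ := exists_Nb G m x hmax hP hm
  have e1 := main3 G m x hmax hP hG Nb hNb (by omega) (by omega) y hy t ht hyt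
  have hP' := rev_isP G m x hP
  obtain ⟨Nb', hNb', hNb2'⟩ := exists_Nb G m _ hmax hP' hm
  simp only [Nat.sub_zero] at hNb2'
  have e2 := main3 G m _ hmax hP' hG Nb' hNb' (by omega)
    (by simp only [Nat.sub_self]; omega) y (rev_out m x y hy) (m - 1 - t) (by omega)
    (by rw [show m - 1 - (m - 1 - t) = t by omega]; exact hyt)
  have hm3 : m = 3 := by omega
  have hsub : Nb ⊆ {1} := by
    intro j hj
    have := (hNb j).1 hj
    simp only [Finset.mem_singleton]; omega
  have := Finset.card_le_card hsub
  simp only [Finset.card_singleton] at this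
  omega

theorem caseBoth2 (hG : G.Connected) (hL : leafNumber G ≤ 3)
    (h0 : 2 ≤ deg G (x 0)) (h1 : 2 ≤ deg G (x (m - 1)))
    (y : V) (hy : Out m x y) (t : ℕ) (ht : t < m) (hyt : G.Adj y (x t)) : False := by
  have e1 := main2 G m x hmax hP hG hL h0 y hy t ht hyt
  have hP' := rev_isP G m x hP
  have e2 := main2 G m _ hmax hP' hG hL (by simpa using h1) y (rev_out m x y hy) (m - 1 - t)
    (by omega) (by rw [show m - 1 - (m - 1 - t) = t by omega]; exact hyt)
  omega

theorem caseOne2 (hG : G.Connected) (hL : leafNumber G ≤ 3)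
    (h0 : 2 ≤ deg G (x 0)) (h1 : ∀ v, v ≠ x (m - 1) → 2 ≤ deg G v)
    (y : V) (hy : Out m x y) (t : ℕ) (ht : t < m) (hyt : G.Adj y (x t)) : False := by
  obtain ⟨e1, e2⟩ := main2 G m x hmax hP hG hL h0 y hy t ht hyt
  subst e1
  have hdy := h1 y (hy _ (by omega))
  obtain ⟨z, hz1, hz2⟩ : ∃ z, G.Adj y z ∧ z ≠ x 1 := by
    by_contra hcon
    push Not at hcon
    have h2 : G.neighborSet y ⊆ {x 1} := fun w hw => hcon w hw
    have h3 : deg G y ≤ 1 := by
      have := Set.ncard_le_ncard h2 (Set.toFinite _)
      rwa [Set.ncard_singleton] at this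
    omega
  by_cases hz : Out m x z
  · exact g_six G m x hmax hP (by omega) y z hy hz hz1 hyt
  · unfold Out at hz
    push Not at hz
    obtain ⟨j, hj, rfl⟩ := hz
    have := main2 G m x hmax hP hG hL h0 y hy j hj hz1
    exact hz2 (by rw [this.1])

open Classical in
theorem caseOne3 (hG : G.Connected) (k : ℕ) (hk : 3 ≤ k) (hL : leafNumber G ≤ k + 1)
    (h0 : k ≤ deg G (x 0)) (h1 : ∀ v, v ≠ x (m - 1) → k ≤ deg G v)
    (y : V) (hy : Out m x y) (t : ℕ) (ht : t < m) (hyt : G.Adj y (x t)) : False := by
  have hm : 0 < m := by omega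
  obtain ⟨Nb, hNb, hNb2⟩ := exists_Nb G m x hmax hP hm
  have hLN : leafNumber G ≤ Nb.card + 2 := by omega
  have hdy := h1 y (hy _ (by omega))
  -- neighbours on the path of an outside vertex
  let Jf : V → Finset ℕ := fun v => (Finset.range m).filter (fun j => G.Adj v (x j))
  have hJf : ∀ v j, j ∈ Jf v ↔ j < m ∧ G.Adj v (x j) := by
    intro v j; simp [Jf]
  have hJpos : ∀ v, Out m x v → ∀ j ∈ Jf v, 0 < j ∧ j + 1 < m := by
    intro v hv j hj
    have := (hJf v j).1 hj
    exact g_pos G m x hmax hP hm v hv j this.1 this.2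
  have hJcons : ∀ v, Out m x v → ∀ j ∈ Jf v, j + 1 ∉ Jf v := by
    intro v hv j hj hj1
    have h2 := (hJf v j).1 hj
    have h3 := (hJf v _).1 hj1
    exact g_cons G m x hmax hP v hv j h3.1 h2.2 h3.2
  -- the tree around `y` with optional further neighbour
  by_cases hout : ∃ c, Out m x c ∧ G.Adj y c
  · obtain ⟨c, hc, hyc⟩ := hout
    have honly : ∀ w, G.Adj y w → (∃ i ∈ Jf y, x i = w) ∨ w = c := by
      intro w hw
      by_cases hwc : w = c
      · exact Or.inr hwc
      · left
        by_contra hcon
        push Not at hcon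
        have hwo : Out m x w := by
          intro j hj h
          exact hcon j ((hJf y j).2 ⟨hj, h ▸ hw⟩) h.symm
        exact no_two_out G m x hmax hP hG Nb hNb hLN y w c hy t ht hyt hwo hc hwc hw hyc
    have hdJ := deg_le' G y c x (Jf y) honly
    -- generic tree with at least three neighbours
    by_cases hJ3 : 3 ≤ (Jf y).card
    · have hφ := ext_inj x m 2 (l2 y c) hP.1 (l2_inj y c hyc.ne) (by
        intro i hi j hj; interval_cases i <;> simp [l2] <;> [exact hy j hj; exact hc j hj])
      have adjn := ext_adjn G x m (l2 y c) hP.2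
      have e0 : ext x m (l2 y c) m = y := by rw [ext_m]; simp [l2]
      have e1 : ext x m (l2 y c) (m + 1) = c := by rw [ext_add]; simp [l2]
      have := treeY G hG m (m + 2) (ext x m (l2 y c)) (by omega) hφ adjn (Jf y) (by
        intro j hj
        have h2 := (hJf y j).1 hj
        have h3 := hJpos y hy j hj
        rw [e0, ext_lt x m _ h2.1]
        exact ⟨h3.1, h3.2, h2.2⟩) (hJcons y hy) hJ3 (by
        intro i hi1 hi2
        have : i = m + 1 := by omega
        rw [this, e1, e0]; exact hyc.symm)
      omega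
    · have hk3 : k = 3 := by omega
      subst hk3
      have hJ2 : 2 ≤ (Jf y).card := by omega
      have hdc := h1 c (hc _ (by omega))
      -- `c` is attached to the path
      have hcatt : ∃ q, q < m ∧ G.Adj c (x q) := by
        by_contra hcon
        push Not at hcon
        have houtc : ∀ w, G.Adj c w → Out m x w := by
          intro w hw j hj h
          exact hcon j hj (h ▸ hw)
        have h2 : 2 ≤ ((G.neighborSet c) \ {y}).ncard := by
          have := Set.ncard_diff_singleton_of_mem (show y ∈ G.neighborSet c from hyc.symm)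
          rw [this]
          have : deg G c = (G.neighborSet c).ncard := rfl
          omega
        obtain ⟨z1, z2, hz1, hz2, hz⟩ := (Set.one_lt_ncard_iff (Set.toFinite _)).1
          (show 1 < ((G.neighborSet c) \ {y}).ncard by omega)
        exact no_two_out4 G m x hmax hP hG Nb hNb hLN y c z1 z2 hy hc hyc t ht hyt
          (houtc z1 hz1.1) (houtc z2 hz2.1) hz hz1.1 hz2.1 hz1.2 hz2.2
      obtain ⟨q0, hq0, hcq0⟩ := hcatt
      have honlyc : ∀ w, G.Adj c w → (∃ i ∈ Jf c, x i = w) ∨ w = y := by
        intro w hw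
        by_cases hwc : w = y
        · exact Or.inr hwc
        · left
          by_contra hcon
          push Not at hcon
          have hwo : Out m x w := by
            intro j hj h
            exact hcon j ((hJf c j).2 ⟨hj, h ▸ hw⟩) h.symm
          exact no_two_out G m x hmax hP hG Nb hNb hLN c w y hc q0 hq0 hcq0 hwo hy hwc hw
            hyc.symm
      have hdJc := deg_le' G c y x (Jf c) honlyc
      have hJc2 : 2 ≤ (Jf c).card := by omega
      -- two elements of each
      have pick : ∀ v, 2 ≤ (Jf v).card → ∃ a b, a ∈ Jf v ∧ b ∈ Jf v ∧ a < b := by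
        intro v hv
        obtain ⟨a, ha, b, hb, hab⟩ := Finset.one_lt_card.1 (show 1 < (Jf v).card by omega)
        rcases Nat.lt_or_ge a b with h | h
        · exact ⟨a, b, ha, hb, h⟩
        · exact ⟨b, a, hb, ha, by omega⟩
      -- the gap is exactly two
      have gap : ∀ v w, Out m x v → Out m x w → G.Adj v w → ∀ a b, a ∈ Jf v → b ∈ Jf v →
          a < b → b = a + 2 := by
        intro v w hv hw hvw a b ha hb hab
        by_contra hcon
        have h2 : b ≠ a + 1 := fun h => hJcons v hv a ha (h ▸ hb)
        have h3 := (hJf v a).1 ha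
        have h4 := (hJf v b).1 hb
        have h5 := hJpos v hv a ha
        have h6 := hJpos v hv b hb
        have hφ := ext_inj x m 2 (l2 v w) hP.1 (l2_inj v w hvw.ne) (by
          intro i hi j hj; interval_cases i <;> simp [l2] <;> [exact hv j hj; exact hw j hj])
        have adjn := ext_adjn G x m (l2 v w) hP.2
        have e0 : ext x m (l2 v w) m = v := by rw [ext_m]; simp [l2]
        have e1 : ext x m (l2 v w) (m + 1) = w := by rw [ext_add]; simp [l2]
        have := treeZ1 G hG m a b (ext x m (l2 v w)) hφ adjn h5.1 (by omega) h6.2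
          (by rw [e0, ext_lt x m _ h3.1]; exact h3.2)
          (by rw [e0, ext_lt x m _ h4.1]; exact h4.2) (by rw [e0, e1]; exact hvw)
        omega
      -- no far attachment
      have far : ∀ v w, Out m x v → Out m x w → G.Adj v w → ∀ a q, a ∈ Jf v → a + 2 ∈ Jf v →
          q ∈ Jf w → a + 5 ≤ q → False := by
        intro v w hv hw hvw a q ha hb hq haq
        have h3 := (hJf v a).1 ha
        have h4 := (hJf v _).1 hb
        have h7 := (hJf w q).1 hq
        have h5 := hJpos v hv a ha
        have h6 := hJpos w hw q hq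
        have hφ := ext_inj x m 2 (l2 v w) hP.1 (l2_inj v w hvw.ne) (by
          intro i hi j hj; interval_cases i <;> simp [l2] <;> [exact hv j hj; exact hw j hj])
        have adjn := ext_adjn G x m (l2 v w) hP.2
        have e0 : ext x m (l2 v w) m = v := by rw [ext_m]; simp [l2]
        have e1 : ext x m (l2 v w) (m + 1) = w := by rw [ext_add]; simp [l2]
        have := treeZ2 G hG m a q (ext x m (l2 v w)) hφ adjn h5.1 haq h6.2
          (by rw [e0, ext_lt x m _ h3.1]; exact h3.2)
          (by rw [e0, ext_lt x m _ h4.1]; exact h4.2) (by rw [e0, e1]; exact hvw)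
          (by rw [e1, ext_lt x m _ h7.1]; exact h7.2)
        omega
      obtain ⟨a, b, ha, hb, hab⟩ := pick y hJ2
      obtain ⟨a', b', ha', hb', hab'⟩ := pick c hJc2
      have hb2 := gap y c hy hc hyc a b ha hb hab
      have hb2' := gap c y hc hy hyc.symm a' b' ha' hb' hab'
      have cl : ∀ p q, p ∈ Jf y → q ∈ Jf c → p ≠ q → p + 3 ≤ q ∨ q + 3 ≤ p := by
        intro p q hp hq hpq
        have h3 := (hJf y p).1 hp
        have h4 := (hJf c q).1 hq
        exact g_far G m x hmax hP y c hy hc hyc p q h3.1 h4.1 h3.2 h4.2 hpq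
      subst hb2
      subst hb2'
      have f1 : a ≠ a' := by
        intro h
        have := cl (a + 2) a' hb ha' (by omega)
        omega
      have f2 : a + 2 ≠ a' := by
        intro h
        have := cl a a' ha ha' (by omega)
        omega
      have g1 := cl a a' ha ha' f1
      have g2 := cl (a + 2) a' hb ha' f2
      rcases g1 with g1 | g1
      · rcases g2 with g2 | g2
        · exact far y c hy hc hyc a a' ha hb ha' (by omega)
        · omega
      · have f3 : a ≠ a' + 2 := by omega
        have g3 := cl a (a' + 2) ha hb' f3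
        rcases g3 with g3 | g3
        · omega
        · exact far c y hc hy hyc.symm a' a ha' hb' ha (by omega)
  · push Not at hout
    have honly : ∀ w, G.Adj y w → ∃ i ∈ Jf y, x i = w := by
      intro w hw
      by_contra hcon
      push Not at hcon
      exact hout w (fun j hj h => hcon j ((hJf y j).2 ⟨hj, h ▸ hw⟩) h.symm) hw
    have hdJ := deg_le G y x (Jf y) honly
    have hφ := ext_inj x m 1 (fun _ => y) hP.1 (l1_inj y) (fun i _ j hj => hy j hj)
    have adjn := ext_adjn G x m (fun _ => y) hP.2
    have := treeY G hG m (m + 1) (ext x m (fun _ => y)) (by omega) hφ adjn (Jf y) (by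
      intro j hj
      have h2 := (hJf y j).1 hj
      have h3 := hJpos y hy j hj
      rw [ext_m, ext_lt x m _ h2.1]
      exact ⟨h3.1, h3.2, h2.2⟩) (hJcons y hy) (by omega) (by
      intro i hi1 hi2
      omega)
    omega

end

/-- `G` has a Hamiltonian path: its vertices can be listed without repetition so that
consecutive vertices are adjacent. -/
def Traceable (G : SimpleGraph V) : Prop :=
  ∃ p : Fin (Fintype.card V) → V, Function.Bijective p ∧
    ∀ i j : Fin (Fintype.card V), (j : ℕ) = (i : ℕ) + 1 → G.Adj (p i) (p j)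

theorem traceable_of (G : SimpleGraph V) (hG : G.Connected) (k : ℕ)
    (hk : ∀ u v, deg G u < k → deg G v < k → u = v) (hL : leafNumber G ≤ k + 1) :
    Traceable G := by
  classical
  obtain ⟨v0⟩ := hG.nonempty
  -- a longest path
  have hbig : ¬ ∃ x, IsP G (Fintype.card V + 1) x := by
    rintro ⟨x, hx, -⟩
    have := Fintype.card_le_of_injective (fun i : Fin (Fintype.card V + 1) => x i)
      (fun i j h => Fin.ext (hx i i.2 j j.2 h))
    simp only [Fintype.card_fin] at this
    omega
  have hex : ∃ n, ¬ ∃ x, IsP G n x := ⟨_, hbig⟩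
  set n1 := Nat.find hex with hn1
  have hn1s : ¬ ∃ x, IsP G n1 x := Nat.find_spec hex
  have hP1 : ∃ x, IsP G 1 x := ⟨fun _ => v0, fun i hi j hj _ => by omega, fun i hi => by omega⟩
  have hP0 : ∃ x, IsP G 0 x := ⟨fun _ => v0, fun i hi j hj _ => by omega, fun i hi => by omega⟩
  have h2 : 2 ≤ n1 := by
    by_contra hcon
    rcases (show n1 = 0 ∨ n1 = 1 by omega) with h | h
    · exact hn1s (h ▸ hP0)
    · exact hn1s (h ▸ hP1)
  have hm1 : ∃ x, IsP G (n1 - 1) x := by
    by_contra hcon
    have := Nat.find_min' hex hcon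
    omega
  obtain ⟨x, hP⟩ := hm1
  set m := n1 - 1 with hm
  have hmax : ∀ z, ¬ IsP G (m + 1) z := by
    intro z hz
    exact hn1s ⟨z, by rwa [show m + 1 = n1 by omega] at hz⟩
  have hmle : m ≤ Fintype.card V := by
    have := Fintype.card_le_of_injective (fun i : Fin m => x i)
      (fun i j h => Fin.ext (hP.1 i i.2 j j.2 h))
    simpa using this
  by_cases hfull : m = Fintype.card V
  · refine ⟨fun i => x i, ?_, ?_⟩
    · rw [Fintype.bijective_iff_injective_and_card]
      refine ⟨fun i j h => Fin.ext (hP.1 i (by omega) j (by omega) h), by simp⟩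
    · intro i j hij
      simp only [hij]
      exact hP.2 i (by omega)
  · exfalso
    -- an outside vertex attached to the path
    have hy : ∃ y, Out m x y ∧ ∃ t < m, G.Adj y (x t) := by
      by_contra hcon
      push Not at hcon
      have hreach : ∀ (a b : V), G.Reachable a b → (∃ j < m, x j = a) → ∃ j < m, x j = b := by
        rintro a b ⟨p⟩
        induction p with
        | nil => exact fun h => h
        | @cons a b c h p ihp =>
          rintro ⟨j, hj, rfl⟩
          apply ihp
          by_contra hb
          push Not at hb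
          exact hcon b (fun i hi hbi => hb i hi hbi.symm) j hj h.symm
      have hsurj : Function.Surjective (fun i : Fin m => x i) := by
        intro b
        obtain ⟨j, hj, hjb⟩ := hreach (x 0) b (hG (x 0) b) ⟨0, by omega, rfl⟩
        exact ⟨⟨j, hj⟩, hjb⟩
      have := Fintype.card_le_of_surjective _ hsurj
      simp only [Fintype.card_fin] at this
      omega
    obtain ⟨y, hy, t, ht, hyt⟩ := hy
    have hmpos : 0 < m := by omega
    obtain ⟨ht0, ht1⟩ := g_pos G m x hmax hP hmpos y hy t ht hyt
    have hP' := rev_isP G m x hP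
    have hy' := rev_out m x y hy
    have hyt' : G.Adj y (x (m - 1 - (m - 1 - t))) := by
      rw [show m - 1 - (m - 1 - t) = t by omega]; exact hyt
    have hends : x 0 ≠ x (m - 1) := by
      intro h
      have := hP.1 0 hmpos (m - 1) (by omega) h
      omega
    rcases Nat.lt_or_ge k 2 with hk2 | hk2
    · -- at most two leaves
      have hφ := ext_inj x m 1 (fun _ => y) hP.1 (l1_inj y) (fun i _ j hj => hy j hj)
      have adjn := ext_adjn G x m (fun _ => y) hP.2
      have := tree0 G hG m t (ext x m (fun _ => y)) hφ adjn ht0 ht1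
        (by rw [ext_m, ext_lt x m _ ht]; exact hyt)
      omega
    · rcases Nat.lt_or_ge k 3 with hk3 | hk3
      · have hk' : k = 2 := by omega
        subst hk'
        rcases Nat.lt_or_ge (deg G (x 0)) 2 with h0 | h0
        · -- the start is special: reverse
          refine caseOne2 G m _ hmax hP' hG hL ?_ ?_ y hy' (m - 1 - t) (by omega) hyt'
          · simp only [Nat.sub_zero]
            by_contra hcon
            exact hends (hk _ _ h0 (by omega))
          · intro v hv
            simp only [Nat.sub_self] at hv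
            by_contra hcon
            exact hv (hk _ _ (by omega) h0)
        · rcases Nat.lt_or_ge (deg G (x (m - 1))) 2 with h1 | h1
          · refine caseOne2 G m x hmax hP hG hL h0 ?_ y hy t ht hyt
            intro v hv
            by_contra hcon
            exact hv (hk _ _ (by omega) h1)
          · exact caseBoth2 G m x hmax hP hG hL h0 h1 y hy t ht hyt
      · rcases Nat.lt_or_ge (deg G (x 0)) k with h0 | h0
        · refine caseOne3 G m _ hmax hP' hG k hk3 hL ?_ ?_ y hy' (m - 1 - t) (by omega) hyt'
          · simp only [Nat.sub_zero]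
            by_contra hcon
            exact hends (hk _ _ h0 (by omega))
          · intro v hv
            simp only [Nat.sub_self] at hv
            by_contra hcon
            exact hv (hk _ _ (by omega) h0)
        · rcases Nat.lt_or_ge (deg G (x (m - 1))) k with h1 | h1
          · refine caseOne3 G m x hmax hP hG k hk3 hL h0 ?_ y hy t ht hyt
            intro v hv
            by_contra hcon
            exact hv (hk _ _ (by omega) h1)
          · exact caseBoth3 G m x hmax hP hG k hk3 hL h0 h1 y hy t ht hyt

end Pool.Agent.Q267.LN
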