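import Pool.Agent.Q267.LN.Base

set_option autoImplicit false

/-!
Explicit trees with many leaves built from a path and vertices outside it.
-/

namespace Pool.Agent.Q267.LN

variable {V : Type*} [Fintype V]

/-- indices `j` with `1 ≤ j < m - 1` whose successor is adjacent to the start of the path -/
def IsNb (G : SimpleGraph V) (φ : ℕ → V) (m : ℕ) (Nb : Finset ℕ) : Prop :=
  ∀ j, j ∈ Nb ↔ (1 ≤ j ∧ j + 1 < m ∧ G.Adj (φ 0) (φ (j + 1)))

theorem tree0 (G : SimpleGraph V) (hG : G.Connected) (m t : ℕ) (φ : ℕ → V)
    (hφ : ∀ i < m + 1, ∀ j < m + 1, φ i = φ j → i = j)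
    (adjn : ∀ i, i + 1 < m → G.Adj (φ i) (φ (i + 1)))
    (ht0 : 0 < t) (ht : t + 1 < m) (hmt : G.Adj (φ m) (φ t)) :
    3 ≤ leafNumber G := by
  have adjp : ∀ i, 1 ≤ i → i < m → G.Adj (φ i) (φ (i - 1)) := by
    intro i h1 h2
    have := (adjn (i - 1) (by omega)).symm
    rwa [show i - 1 + 1 = i by omega] at this
  have := grow_idx G hG (m + 1) φ hφ t (by omega)
    (fun i => if i = m then t else if i < t then i + 1 else i - 1)
    (fun i => if i < t then t - i else i - t + (if i = m then 1 else 0)) ?_ {0, m - 1, m} ?_
  · rw [Finset.card_insert_of_notMem (by simp; omega),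
      Finset.card_insert_of_notMem (by simp; omega), Finset.card_singleton] at this
    exact this
  · intro i hi hit
    by_cases h1 : i = m
    · subst h1
      simp only [if_true]
      refine ⟨by omega, hmt, ?_⟩
      split_ifs <;> omega
    · by_cases h2 : i < t
      · simp only [if_neg h1, if_pos h2]
        refine ⟨by omega, adjn i (by omega), ?_⟩
        split_ifs <;> omega
      · simp only [if_neg h1, if_neg h2]
        refine ⟨by omega, adjp i (by omega) (by omega), ?_⟩
        split_ifs <;> omega
  · intro s hs
    simp only [Finset.mem_insert, Finset.mem_singleton] at hs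
    refine ⟨by omega, by omega, ?_⟩
    intro i hi hit
    split_ifs <;> omega

/-- spider at the start of the path, with a tree outside the path attached at `t` -/
theorem tree1 (G : SimpleGraph V) (hG : G.Connected) (m t N : ℕ) (φ : ℕ → V)
    (hN : m < N) (hφ : ∀ i < N, ∀ j < N, φ i = φ j → i = j)
    (adjn : ∀ i, i + 1 < m → G.Adj (φ i) (φ (i + 1)))
    (ht : t + 1 < m) (hmt : G.Adj (φ m) (φ t))
    (ht2 : ¬ G.Adj (φ 0) (φ (t + 1)))
    (Nb : Finset ℕ) (hNb : IsNb G φ m Nb)
    (τ : ℕ → ℕ) (hτ : ∀ i, m < i → i < N → m ≤ τ i ∧ τ i < i ∧ G.Adj (φ i) (φ (τ i)))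
    (S' : Finset ℕ) (hS' : ∀ s ∈ S', m ≤ s ∧ s < N ∧ ∀ i, m < i → i < N → τ i ≠ s) :
    Nb.card + 1 + S'.card ≤ leafNumber G := by
  classical
  have adjp : ∀ i, 1 ≤ i → i < m → G.Adj (φ i) (φ (i - 1)) := by
    intro i h1 h2
    have := (adjn (i - 1) (by omega)).symm
    rwa [show i - 1 + 1 = i by omega] at this
  have := grow_idx G hG N φ hφ 0 (by omega)
    (fun i => if i < m then (if G.Adj (φ 0) (φ i) then 0 else i - 1)
      else if i = m then t else τ i)
    (fun i => i) ?_ (Nb ∪ ({m - 1} ∪ S')) ?_
  · rw [Finset.card_union_of_disjoint, Finset.card_union_of_disjoint,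
      Finset.card_singleton] at this
    · omega
    · rw [Finset.disjoint_singleton_left]
      intro h
      have := (hS' _ h).1
      omega
    · rw [Finset.disjoint_left]
      intro j hj hj2
      have h1 := (hNb j).1 hj
      simp only [Finset.mem_union, Finset.mem_singleton] at hj2
      rcases hj2 with h | h
      · omega
      · have := (hS' _ h).1
        omega
  · intro i hi hi0
    by_cases h1 : i < m
    · by_cases h2 : G.Adj (φ 0) (φ i)
      · simp only [if_pos h1, if_pos h2]
        exact ⟨by omega, h2.symm, by omega⟩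
      · simp only [if_pos h1, if_neg h2]
        exact ⟨by omega, adjp i (by omega) h1, by omega⟩
    · by_cases h2 : i = m
      · subst h2
        simp only [lt_irrefl, if_false, if_true]
        exact ⟨by omega, hmt, by omega⟩
      · simp only [if_neg h1, if_neg h2]
        obtain ⟨h3, h4, h5⟩ := hτ i (by omega) hi
        exact ⟨by omega, h5, h4⟩
  · intro s hs
    simp only [Finset.mem_union, Finset.mem_singleton] at hs
    rcases hs with hs | hs | hs
    · obtain ⟨h1, h2, h3⟩ := (hNb s).1 hs
      refine ⟨by omega, by omega, ?_⟩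
      intro i hi hi0
      by_cases h4 : i < m
      · by_cases h5 : G.Adj (φ 0) (φ i)
        · simp only [if_pos h4, if_pos h5]; omega
        · simp only [if_pos h4, if_neg h5]
          intro h6
          apply h5
          rwa [show s + 1 = i by omega] at h3
      · by_cases h5 : i = m
        · simp only [if_neg h4, if_pos h5]
          intro h6
          exact ht2 (h6 ▸ h3)
        · simp only [if_neg h4, if_neg h5]
          have := (hτ i (by omega) hi).1
          omega
    · refine ⟨by omega, by omega, ?_⟩
      intro i hi hi0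
      by_cases h4 : i < m
      · simp only [if_pos h4]
        split_ifs <;> omega
      · by_cases h5 : i = m
        · simp only [if_neg h4, if_pos h5]; omega
        · simp only [if_neg h4, if_neg h5]
          have := (hτ i (by omega) hi).1
          omega
    · obtain ⟨h1, h2, h3⟩ := hS' s hs
      refine ⟨h2, by omega, ?_⟩
      intro i hi hi0
      by_cases h4 : i < m
      · simp only [if_pos h4]
        split_ifs <;> omega
      · by_cases h5 : i = m
        · simp only [if_neg h4, if_pos h5]; omega
        · simp only [if_neg h4, if_neg h5]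
          exact h3 i (by omega) hi

theorem tree3 (G : SimpleGraph V) (hG : G.Connected) (m t p q I : ℕ) (φ : ℕ → V)
    (hφ : ∀ i < m + 1, ∀ j < m + 1, φ i = φ j → i = j)
    (adjn : ∀ i, i + 1 < m → G.Adj (φ i) (φ (i + 1)))
    (ht0 : 0 < t) (ht : t + 1 < m) (hmt : G.Adj (φ m) (φ t))
    (ht2 : ¬ G.Adj (φ 0) (φ (t + 1)))
    (Nb : Finset ℕ) (hNb : IsNb G φ m Nb)
    (hI : ∀ i < m, G.Adj (φ 0) (φ i) → i ≤ I)
    (hq : q < I) (hIp : I ≤ p) (hp : p + 1 < m) (hmq : G.Adj (φ (m - 1)) (φ q))
    (hq2 : ¬ G.Adj (φ 0) (φ (q + 1))) (htp : t ≠ p) (htp1 : t ≠ p + 1) :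
    Nb.card + 3 ≤ leafNumber G := by
  classical
  have adjp : ∀ i, 1 ≤ i → i < m → G.Adj (φ i) (φ (i - 1)) := by
    intro i h1 h2
    have := (adjn (i - 1) (by omega)).symm
    rwa [show i - 1 + 1 = i by omega] at this
  have := grow_idx G hG (m + 1) φ hφ 0 (by omega)
    (fun i => if i = m then t else if i ≤ p then (if G.Adj (φ 0) (φ i) then 0 else i - 1)
      else if i = m - 1 then q else i + 1)
    (fun i => if i = m then 3 * m else if i ≤ p then i else 2 * m - i) ?_
    (Nb ∪ {p, p + 1, m}) ?_
  · rw [Finset.card_union_of_disjoint, Finset.card_insert_of_notMem (by simp; omega),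
      Finset.card_insert_of_notMem (by simp; omega),
      Finset.card_singleton] at this
    · omega
    · rw [Finset.disjoint_left]
      intro j hj hj2
      obtain ⟨h1, h2, h3⟩ := (hNb j).1 hj
      have h4 := hI (j + 1) h2 h3
      simp only [Finset.mem_insert, Finset.mem_singleton] at hj2
      omega
  · intro i hi hi0
    by_cases h1 : i = m
    · subst h1
      simp only [if_true]
      refine ⟨by omega, hmt, ?_⟩
      split_ifs <;> omega
    · by_cases h2 : i ≤ p
      · by_cases h3 : G.Adj (φ 0) (φ i)
        · simp only [if_neg h1, if_pos h2, if_pos h3]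
          refine ⟨by omega, h3.symm, ?_⟩
          split_ifs <;> omega
        · simp only [if_neg h1, if_pos h2, if_neg h3]
          refine ⟨by omega, adjp i (by omega) (by omega), ?_⟩
          split_ifs <;> omega
      · by_cases h3 : i = m - 1
        · subst h3
          simp only [if_neg h1, if_neg h2, if_true]
          refine ⟨by omega, hmq, ?_⟩
          split_ifs <;> omega
        · simp only [if_neg h1, if_neg h2, if_neg h3]
          refine ⟨by omega, adjn i (by omega), ?_⟩
          split_ifs <;> omega
  · intro s hs
    simp only [Finset.mem_union, Finset.mem_insert, Finset.mem_singleton] at hs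
    rcases hs with hs | hs
    · obtain ⟨h1, h2, h3⟩ := (hNb s).1 hs
      have h4 := hI (s + 1) h2 h3
      refine ⟨by omega, by omega, ?_⟩
      intro i hi hi0
      by_cases h5 : i = m
      · simp only [if_pos h5]
        intro h6
        exact ht2 (h6 ▸ h3)
      · by_cases h6 : i ≤ p
        · by_cases h7 : G.Adj (φ 0) (φ i)
          · simp only [if_neg h5, if_pos h6, if_pos h7]; omega
          · simp only [if_neg h5, if_pos h6, if_neg h7]
            intro h8
            apply h7
            rwa [show s + 1 = i by omega] at h3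
        · by_cases h7 : i = m - 1
          · simp only [if_neg h5, if_neg h6, if_pos h7]
            intro h8
            exact hq2 (h8 ▸ h3)
          · simp only [if_neg h5, if_neg h6, if_neg h7]
            omega
    · refine ⟨by omega, by omega, ?_⟩
      intro i hi hi0
      split_ifs <;> omega

theorem tree4 (G : SimpleGraph V) (hG : G.Connected) (m t q q' I : ℕ) (φ : ℕ → V)
    (hφ : ∀ i < m + 1, ∀ j < m + 1, φ i = φ j → i = j)
    (adjn : ∀ i, i + 1 < m → G.Adj (φ i) (φ (i + 1)))
    (ht0 : 0 < t) (ht : t + 1 < m) (hmt : G.Adj (φ m) (φ t))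
    (ht2 : ¬ G.Adj (φ 0) (φ (t + 1)))
    (Nb : Finset ℕ) (hNb : IsNb G φ m Nb)
    (hI : ∀ i < m, G.Adj (φ 0) (φ i) → i ≤ I) (hI1 : 1 ≤ I)
    (hq : I ≤ q) (hqq : q < q') (hq' : q' + 2 < m)
    (hmq : G.Adj (φ (m - 1)) (φ q)) (hmq' : G.Adj (φ (m - 1)) (φ q'))
    (htq : t ≠ q + 1) (htq' : t ≠ q' + 1) :
    Nb.card + 3 ≤ leafNumber G := by
  classical
  have adjp : ∀ i, 1 ≤ i → i < m → G.Adj (φ i) (φ (i - 1)) := by
    intro i h1 h2
    have := (adjn (i - 1) (by omega)).symm
    rwa [show i - 1 + 1 = i by omega] at this
  have := grow_idx G hG (m + 1) φ hφ 0 (by omega)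
    (fun i => if i = m then t else if i ≤ q then (if G.Adj (φ 0) (φ i) then 0 else i - 1)
      else if i = m - 1 then q else if i = q' then m - 1 else i + 1)
    (fun i => if i = m then 5 * m else if i ≤ q then i else if i ≤ q' then 4 * m - i
      else 2 * m - i) ?_
    (Nb ∪ {q + 1, q' + 1, m}) ?_
  · rw [Finset.card_union_of_disjoint, Finset.card_insert_of_notMem (by simp; omega),
      Finset.card_insert_of_notMem (by simp; omega),
      Finset.card_singleton] at this
    · omega
    · rw [Finset.disjoint_left]
      intro j hj hj2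
      obtain ⟨h1, h2, h3⟩ := (hNb j).1 hj
      have h4 := hI (j + 1) h2 h3
      simp only [Finset.mem_insert, Finset.mem_singleton] at hj2
      omega
  · intro i hi hi0
    by_cases h1 : i = m
    · subst h1
      simp only [if_true]
      refine ⟨by omega, hmt, ?_⟩
      split_ifs <;> omega
    · by_cases h2 : i ≤ q
      · by_cases h3 : G.Adj (φ 0) (φ i)
        · simp only [if_neg h1, if_pos h2, if_pos h3]
          refine ⟨by omega, h3.symm, ?_⟩
          split_ifs <;> omega
        · simp only [if_neg h1, if_pos h2, if_neg h3]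
          refine ⟨by omega, adjp i (by omega) (by omega), ?_⟩
          split_ifs <;> omega
      · by_cases h3 : i = m - 1
        · subst h3
          simp only [if_neg h1, if_neg h2, if_true]
          refine ⟨by omega, hmq, ?_⟩
          split_ifs <;> omega
        · by_cases h4 : i = q'
          · subst h4
            simp only [if_neg h1, if_neg h2, if_neg h3, if_true]
            refine ⟨by omega, hmq'.symm, ?_⟩
            split_ifs <;> omega
          · simp only [if_neg h1, if_neg h2, if_neg h3, if_neg h4]
            refine ⟨by omega, adjn i (by omega), ?_⟩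
            split_ifs <;> omega
  · intro s hs
    simp only [Finset.mem_union, Finset.mem_insert, Finset.mem_singleton] at hs
    rcases hs with hs | hs
    · obtain ⟨h1, h2, h3⟩ := (hNb s).1 hs
      have h4 := hI (s + 1) h2 h3
      refine ⟨by omega, by omega, ?_⟩
      intro i hi hi0
      by_cases h5 : i = m
      · simp only [if_pos h5]
        intro h6
        exact ht2 (h6 ▸ h3)
      · by_cases h6 : i ≤ q
        · by_cases h7 : G.Adj (φ 0) (φ i)
          · simp only [if_neg h5, if_pos h6, if_pos h7]; omega
          · simp only [if_neg h5, if_pos h6, if_neg h7]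
            intro h8
            apply h7
            rwa [show s + 1 = i by omega] at h3
        · simp only [if_neg h5, if_neg h6]
          split_ifs <;> omega
    · refine ⟨by omega, by omega, ?_⟩
      intro i hi hi0
      split_ifs <;> omega

/-- two leaves on a cycle at the start of the path -/
theorem tree5 (G : SimpleGraph V) (hG : G.Connected) (m t p b : ℕ) (φ : ℕ → V)
    (hφ : ∀ i < m + 1, ∀ j < m + 1, φ i = φ j → i = j)
    (adjn : ∀ i, i + 1 < m → G.Adj (φ i) (φ (i + 1)))
    (ht0 : 0 < t) (ht : t + 1 < m) (hmt : G.Adj (φ m) (φ t))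
    (hb : G.Adj (φ 0) (φ b)) (hbm : b + 1 < m) (hp : p + 2 ≤ b)
    (htp : t ≠ p) (htp1 : t ≠ p + 1) :
    4 ≤ leafNumber G := by
  classical
  have adjp : ∀ i, 1 ≤ i → i < m → G.Adj (φ i) (φ (i - 1)) := by
    intro i h1 h2
    have := (adjn (i - 1) (by omega)).symm
    rwa [show i - 1 + 1 = i by omega] at this
  have := grow_idx G hG (m + 1) φ hφ b (by omega)
    (fun i => if i = m then t else if b < i then i - 1 else if p < i then i + 1
      else if i = 0 then b else i - 1)
    (fun i => if i = m then 3 * m + 1 else if i = b then 0 else if b < i then i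
      else if p < i then m - i else m + 1 + i) ?_
    {p, p + 1, m - 1, m} ?_
  · rw [Finset.card_insert_of_notMem (by simp; omega),
      Finset.card_insert_of_notMem (by simp; omega),
      Finset.card_insert_of_notMem (by simp; omega),
      Finset.card_singleton] at this
    exact this
  · intro i hi hib
    by_cases h1 : i = m
    · subst h1
      simp only [if_true]
      refine ⟨by omega, hmt, ?_⟩
      split_ifs <;> omega
    · by_cases h2 : b < i
      · simp only [if_neg h1, if_pos h2]
        refine ⟨by omega, adjp i (by omega) (by omega), ?_⟩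
        split_ifs <;> omega
      · by_cases h3 : p < i
        · simp only [if_neg h1, if_neg h2, if_pos h3]
          refine ⟨by omega, adjn i (by omega), ?_⟩
          split_ifs <;> omega
        · by_cases h4 : i = 0
          · subst h4
            simp only [if_neg h1, if_neg h2, if_neg h3, if_true]
            refine ⟨by omega, hb, ?_⟩
            split_ifs <;> omega
          · simp only [if_neg h1, if_neg h2, if_neg h3, if_neg h4]
            refine ⟨by omega, adjp i (by omega) (by omega), ?_⟩
            split_ifs <;> omega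
  · intro s hs
    simp only [Finset.mem_insert, Finset.mem_singleton] at hs
    refine ⟨by omega, by omega, ?_⟩
    intro i hi hi0
    split_ifs <;> omega

end Pool.Agent.Q267.LN
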